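import Pool.Agent.Work.MP_8a6869_an.PP.Stmts

/-!
# MP_8a6869_an, block PP, item [ABL]: abelian groups are amenable
-/

namespace MP8a6869.PP

open MP8a6869.WR MP8a6869.CC
open Filter Topology

noncomputable section

namespace XAbl

set_option linter.unusedSectionVars false

variable {Γ : Type} [CommGroup Γ] [DecidableEq Γ]

/-- The product of the powers. -/
def P (s : Finset Γ) (n : ℕ) (i : s → Fin (n + 1)) : Γ := ∏ a : s, (a : Γ) ^ (i a : ℕ)

open Classical in
/-- The number of exponents with product in `A`. -/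
def cnt (s : Finset Γ) (n : ℕ) (A : Set Γ) : ℕ :=
  (Finset.univ.filter fun i : s → Fin (n + 1) => P s n i ∈ A).card

open Classical in
/-- The number of exponents with a given value at `b`. -/
def fib (s : Finset Γ) (n : ℕ) (b : s) (c : Fin (n + 1)) : ℕ :=
  (Finset.univ.filter fun i : s → Fin (n + 1) => i b = c).card

open Classical in
/-- The number of exponents. -/
def tot (s : Finset Γ) (n : ℕ) : ℕ := Fintype.card (s → Fin (n + 1))

/-- The proportion of `A`. -/
def mu (A : Set Γ) (p : Finset Γ × ℕ) : ℝ := (cnt p.1 p.2 A : ℝ) / (tot p.1 p.2 : ℝ)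

theorem tot_pos (s : Finset Γ) (n : ℕ) : 0 < tot s n := by
  unfold tot
  exact Fintype.card_pos

theorem cnt_le_tot (s : Finset Γ) (n : ℕ) (A : Set Γ) : cnt s n A ≤ tot s n := by
  classical
  unfold cnt tot
  exact (Finset.card_filter_le _ _).trans (by simp)

theorem fib_mul (s : Finset Γ) (n : ℕ) (b : s) (c : Fin (n + 1)) :
    fib s n b c * (n + 1) = tot s n := by
  classical
  have h1 : fib s n b c = (n + 1) ^ (Fintype.card s - 1) := by
    have := Fintype.card_filter_piFinset_const_eq_of_mem (ι := s) (Finset.univ : Finset (Fin (n + 1)))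
      b (Finset.mem_univ c)
    rw [Finset.card_univ, Fintype.card_fin] at this
    rw [← this]
    unfold fib
    congr 1
  have h2 : 0 < Fintype.card s := Fintype.card_pos_iff.2 ⟨b⟩
  have h3 : tot s n = (n + 1) ^ Fintype.card s := by
    unfold tot
    rw [Fintype.card_fun, Fintype.card_fin]
  rw [h1, h3, ← pow_succ]
  congr 1
  omega

theorem P_update (s : Finset Γ) (n : ℕ) (i : s → Fin (n + 1)) (b : s) (c : Fin (n + 1)) :
    P s n i * (b : Γ) ^ (c : ℕ) = P s n (Function.update i b c) * (b : Γ) ^ (i b : ℕ) := by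
  classical
  unfold P
  rw [← Finset.mul_prod_erase Finset.univ (fun a : s => (a : Γ) ^ (i a : ℕ)) (Finset.mem_univ b),
    ← Finset.mul_prod_erase Finset.univ
      (fun a : s => (a : Γ) ^ (Function.update i b c a : ℕ)) (Finset.mem_univ b)]
  have h : ∏ x ∈ Finset.univ.erase b, ((x : Γ) ^ (Function.update i b c x : ℕ)) =
      ∏ x ∈ Finset.univ.erase b, ((x : Γ) ^ (i x : ℕ)) := by
    refine Finset.prod_congr rfl fun x hx => ?_
    rw [Function.update_of_ne (Finset.ne_of_mem_erase hx)]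
  rw [h, Function.update_self]
  generalize (b : Γ) ^ (i b : ℕ) = u
  generalize (b : Γ) ^ (c : ℕ) = v
  rw [mul_comm u, mul_comm v, mul_assoc, mul_assoc, mul_comm u v]

open Classical in
theorem shift (s : Finset Γ) (n : ℕ) (b : s) (φ : Fin (n + 1) → Fin (n + 1))
    (c0 : Fin (n + 1)) (hφ : ∀ c c', c ≠ c0 → c' ≠ c0 → φ c = φ c' → c = c') (A B : Set Γ)
    (hAB : ∀ i : s → Fin (n + 1), i b ≠ c0 → P s n i ∈ A →
      P s n (Function.update i b (φ (i b))) ∈ B) :
    cnt s n A ≤ cnt s n B + fib s n b c0 := by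
  have h1 : (Finset.univ.filter fun i : s → Fin (n + 1) => P s n i ∈ A) ⊆
      (Finset.univ.filter fun i : s → Fin (n + 1) => P s n i ∈ A ∧ i b ≠ c0) ∪
      (Finset.univ.filter fun i : s → Fin (n + 1) => i b = c0) := by
    intro i hi
    rw [Finset.mem_filter] at hi
    rw [Finset.mem_union, Finset.mem_filter, Finset.mem_filter]
    by_cases h : i b = c0
    · exact Or.inr ⟨Finset.mem_univ _, h⟩
    · exact Or.inl ⟨Finset.mem_univ _, hi.2, h⟩
  have h2 : (Finset.univ.filter fun i : s → Fin (n + 1) => P s n i ∈ A ∧ i b ≠ c0).card ≤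
      cnt s n B := by
    unfold cnt
    refine Finset.card_le_card_of_injOn (fun i => Function.update i b (φ (i b))) ?_ ?_
    · intro i hi
      have hi' := (Finset.mem_filter.1 (Finset.mem_coe.1 hi)).2
      exact Finset.mem_coe.2 (Finset.mem_filter.2 ⟨Finset.mem_univ _, hAB i hi'.2 hi'.1⟩)
    · intro i hi j hj hij
      have hi' := (Finset.mem_filter.1 (Finset.mem_coe.1 hi)).2
      have hj' := (Finset.mem_filter.1 (Finset.mem_coe.1 hj)).2
      funext a
      have h := congrFun hij a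
      by_cases hab : a = b
      · subst hab
        simp only [Function.update_self] at h
        exact hφ _ _ hi'.2 hj'.2 h
      · simp only [Function.update_of_ne hab] at h
        exact h
  have h3 := Finset.card_le_card h1
  have h4 := Finset.card_union_le
    (Finset.univ.filter fun i : s → Fin (n + 1) => P s n i ∈ A ∧ i b ≠ c0)
    (Finset.univ.filter fun i : s → Fin (n + 1) => i b = c0)
  have h5 : cnt s n A = (Finset.univ.filter fun i : s → Fin (n + 1) => P s n i ∈ A).card := rfl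
  have h6 : fib s n b c0 = (Finset.univ.filter fun i : s → Fin (n + 1) => i b = c0).card := rfl
  rw [h5, h6]
  omega

theorem down (s : Finset Γ) (n : ℕ) (b : s) (A : Set Γ) :
    cnt s n ((fun x => (b : Γ) * x) '' A) ≤ cnt s n A + fib s n b 0 := by
  refine shift s n b (fun c => ⟨(c : ℕ) - 1, by omega⟩) 0 ?_ _ _ ?_
  · intro c c' h h' hcc
    have h1 : (c : ℕ) - 1 = (c' : ℕ) - 1 := congrArg Fin.val hcc
    have h2 : (c : ℕ) ≠ 0 := fun h3 => h (Fin.ext h3)
    have h3 : (c' : ℕ) ≠ 0 := fun h3 => h' (Fin.ext h3)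
    exact Fin.ext (by omega)
  · rintro i hi ⟨x, hx, hxi⟩
    have h2 : (i b : ℕ) ≠ 0 := fun h3 => hi (Fin.ext h3)
    have h1 := P_update s n i b ⟨(i b : ℕ) - 1, by omega⟩
    have h3 : P s n (Function.update i b ⟨(i b : ℕ) - 1, by omega⟩) = x := by
      have h4 : (b : Γ) ^ (i b : ℕ) = b * (b : Γ) ^ ((i b : ℕ) - 1) := by
        rw [← pow_succ']
        congr 1
        omega
      have h5 : (b : Γ) * x = P s n i := hxi
      rw [← h5, h4, ← mul_assoc, mul_comm (b : Γ) x] at h1
      exact (mul_right_cancel (mul_right_cancel h1)).symm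
    have h6 : P s n (Function.update i b ⟨(i b : ℕ) - 1, by omega⟩) ∈ A := by
      rw [h3]
      exact hx
    exact h6

theorem up (s : Finset Γ) (n : ℕ) (b : s) (A : Set Γ) :
    cnt s n A ≤ cnt s n ((fun x => (b : Γ) * x) '' A) + fib s n b (Fin.last n) := by
  refine shift s n b (fun c => ⟨min ((c : ℕ) + 1) n, by omega⟩) (Fin.last n) ?_ _ _ ?_
  · intro c c' h h' hcc
    have h1 : min ((c : ℕ) + 1) n = min ((c' : ℕ) + 1) n := congrArg Fin.val hcc
    have h2 : (c : ℕ) ≠ n := fun h3 => h (Fin.ext h3)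
    have h3 : (c' : ℕ) ≠ n := fun h3 => h' (Fin.ext h3)
    have h4 := c.2
    have h5 := c'.2
    exact Fin.ext (by omega)
  · intro i hi hx
    have h2 : (i b : ℕ) ≠ n := fun h3 => hi (Fin.ext h3)
    have h7 := (i b).2
    have h1 := P_update s n i b ⟨min ((i b : ℕ) + 1) n, by omega⟩
    refine ⟨P s n i, hx, ?_⟩
    have h8 : min ((i b : ℕ) + 1) n = (i b : ℕ) + 1 := by omega
    have h9 : P s n i * (b : Γ) ^ ((i b : ℕ) + 1) =
        P s n (Function.update i b ⟨min ((i b : ℕ) + 1) n, by omega⟩) * (b : Γ) ^ (i b : ℕ) := by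
      rw [← h1]
      show P s n i * (b : Γ) ^ ((i b : ℕ) + 1) = P s n i * (b : Γ) ^ (min ((i b : ℕ) + 1) n)
      rw [h8]
    rw [pow_succ', ← mul_assoc] at h9
    show (b : Γ) * P s n i = _
    rw [mul_comm]
    exact mul_right_cancel h9

theorem mu_mem (A : Set Γ) (p : Finset Γ × ℕ) : mu A p ∈ Set.Icc (0 : ℝ) 1 := by
  have h1 : (0 : ℝ) < tot p.1 p.2 := Nat.cast_pos.2 (tot_pos _ _)
  have h2 : (cnt p.1 p.2 A : ℝ) ≤ tot p.1 p.2 := Nat.cast_le.2 (cnt_le_tot _ _ _)
  refine ⟨?_, ?_⟩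
  · unfold mu
    positivity
  · unfold mu
    exact (div_le_one h1).2 h2

theorem mu_univ (p : Finset Γ × ℕ) : mu (Set.univ : Set Γ) p = 1 := by
  have h1 : (0 : ℝ) < tot p.1 p.2 := Nat.cast_pos.2 (tot_pos _ _)
  have h2 : cnt p.1 p.2 (Set.univ : Set Γ) = tot p.1 p.2 := by
    unfold cnt tot
    simp
  unfold mu
  rw [h2]
  exact div_self h1.ne'

theorem mu_union {A B : Set Γ} (hAB : Disjoint A B) (p : Finset Γ × ℕ) :
    mu (A ∪ B) p = mu A p + mu B p := by
  classical
  have h2 : cnt p.1 p.2 (A ∪ B) = cnt p.1 p.2 A + cnt p.1 p.2 B := by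
    unfold cnt
    rw [← Finset.card_union_of_disjoint]
    · congr 1
      ext i
      simp
    · rw [Finset.disjoint_left]
      intro i hi hj
      exact Set.disjoint_left.1 hAB (Finset.mem_filter.1 hi).2 (Finset.mem_filter.1 hj).2
  unfold mu
  rw [h2]
  push_cast
  rw [add_div]

theorem mu_smul (g : Γ) (A : Set Γ) (p : Finset Γ × ℕ) (hg : g ∈ p.1) :
    ‖mu ((fun x => g * x) '' A) p - mu A p‖ ≤ 1 / ((p.2 : ℝ) + 1) := by
  have h1 : (0 : ℝ) < tot p.1 p.2 := Nat.cast_pos.2 (tot_pos _ _)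
  have h0 : (0 : ℝ) < (p.2 : ℝ) + 1 := by positivity
  have hd := down p.1 p.2 ⟨g, hg⟩ A
  have hu := up p.1 p.2 ⟨g, hg⟩ A
  have hf : ∀ c, (fib p.1 p.2 ⟨g, hg⟩ c : ℝ) = (1 / ((p.2 : ℝ) + 1)) * tot p.1 p.2 := by
    intro c
    have := fib_mul p.1 p.2 ⟨g, hg⟩ c
    have h3 : (fib p.1 p.2 ⟨g, hg⟩ c : ℝ) * ((p.2 : ℝ) + 1) = tot p.1 p.2 := by
      exact_mod_cast this
    rw [← h3]
    field_simp
  have hd' : (cnt p.1 p.2 ((fun x => g * x) '' A) : ℝ) ≤
      cnt p.1 p.2 A + (1 / ((p.2 : ℝ) + 1)) * tot p.1 p.2 := by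
    rw [← hf 0]
    exact_mod_cast hd
  have hu' : (cnt p.1 p.2 A : ℝ) ≤
      cnt p.1 p.2 ((fun x => g * x) '' A) + (1 / ((p.2 : ℝ) + 1)) * tot p.1 p.2 := by
    rw [← hf (Fin.last p.2)]
    exact_mod_cast hu
  unfold mu
  rw [← sub_div, Real.norm_eq_abs, abs_div, abs_of_pos h1, div_le_iff₀ h1, abs_le]
  constructor <;> linarith

theorem amen : IsAmen Γ := by
  classical
  let U : Ultrafilter (Finset Γ × ℕ) := Ultrafilter.of atTop
  have hU : (U : Filter (Finset Γ × ℕ)) ≤ atTop := Ultrafilter.of_le atTop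
  have hlim : ∀ A : Set Γ, ∃ x ∈ Set.Icc (0 : ℝ) 1, Tendsto (mu A) U (𝓝 x) := by
    intro A
    obtain ⟨x, hx, hx2⟩ := (isCompact_Icc (a := (0 : ℝ)) (b := 1)).ultrafilter_le_nhds
      (U.map (mu A)) (by
        rw [Ultrafilter.coe_map, le_principal_iff, mem_map]
        exact Filter.univ_mem' fun s => mu_mem A s)
    exact ⟨x, hx, hx2⟩
  choose m hm1 hm2 using hlim
  refine ⟨m, fun A => (hm1 A).1, ?_, ?_, ?_⟩
  · refine tendsto_nhds_unique (hm2 Set.univ) ?_
    have : mu (Set.univ : Set Γ) = fun _ => (1 : ℝ) := funext fun s => mu_univ s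
    rw [this]
    exact tendsto_const_nhds
  · intro A B hAB
    refine tendsto_nhds_unique (hm2 (A ∪ B)) ?_
    have : mu (A ∪ B) = fun s => mu A s + mu B s := funext fun s => mu_union hAB s
    rw [this]
    exact (hm2 A).add (hm2 B)
  · intro g A
    have h1 : Tendsto (fun p => mu ((fun x => g * x) '' A) p - mu A p) U
        (𝓝 (m ((fun x => g * x) '' A) - m A)) := (hm2 _).sub (hm2 _)
    have hev : ∀ᶠ p : Finset Γ × ℕ in atTop, g ∈ p.1 := by
      filter_upwards [eventually_ge_atTop (({g} : Finset Γ), 0)] with p hp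
      exact hp.1 (Finset.mem_singleton_self g)
    have hsnd : Tendsto (fun p : Finset Γ × ℕ => 1 / ((p.2 : ℝ) + 1)) U (𝓝 0) := by
      have h3 : Tendsto (Prod.snd : Finset Γ × ℕ → ℕ) atTop atTop := by
        rw [← Filter.prod_atTop_atTop_eq]
        exact Filter.tendsto_snd
      exact (tendsto_one_div_add_atTop_nhds_zero_nat.comp h3).mono_left hU
    have h2 : Tendsto (fun p => mu ((fun x => g * x) '' A) p - mu A p) U (𝓝 0) := by
      refine squeeze_zero_norm' ?_ hsnd
      filter_upwards [hU hev] with p hp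
      exact mu_smul g A p hp
    have h3 := tendsto_nhds_unique h1 h2
    linarith

end XAbl

/-- [ABL] Abelian groups are amenable. -/
theorem abl : AblStmt := by
  intro Γ inst h
  let instC : CommGroup Γ := { inst with mul_comm := h }
  exact @XAbl.amen Γ instC (Classical.decEq Γ)

end

end MP8a6869.PP
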