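import Pool.Agent.Work.MP_8a6869_an.PP.Stmts

/-!
# Block PP, item ALP (helper39): the doubling homomorphism
-/

namespace MP8a6869.PP

namespace XAlp

variable {G : Type} [Group G] (ρ : G →* (ℝ ≃o ℝ))

theorem mul_app (a b : G) (x : ℝ) : ρ (a * b) x = ρ a (ρ b x) := by
  rw [map_mul]
  rfl

theorem app_inv (a : G) (x : ℝ) : ρ a (ρ a⁻¹ x) = x := by
  rw [← mul_app, mul_inv_cancel, map_one]
  rfl

theorem inv_app (a : G) (x : ℝ) : ρ a⁻¹ (ρ a x) = x := by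
  rw [← mul_app, inv_mul_cancel, map_one]
  rfl

end XAlp

open XAlp in
theorem alp : AlpStmt := by
  intro G _ ρ hρ Λ g K hK hd
  have h1 : ∀ h ∈ Λ, ∀ x, x ∉ K → ρ h x = x := fun h hh x hx =>
    by_contra fun hne => hx (hK h hh hne)
  have hc : ∀ (h : G) (x : ℝ), ρ (g * h * g⁻¹) x = ρ g (ρ h (ρ g⁻¹ x)) := by
    intro h x
    rw [mul_app, mul_app]
  have h2 : ∀ h ∈ Λ, ∀ x, x ∉ ρ g '' K → ρ (g * h * g⁻¹) x = x := by
    intro h hh x hx
    have hx' : ρ g⁻¹ x ∉ K := fun hy => hx ⟨_, hy, app_inv ρ g x⟩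
    rw [hc, h1 h hh _ hx', app_inv]
  have h3 : ∀ h ∈ Λ, ∀ x ∈ K, ρ h x ∈ K := by
    intro h hh x hx
    by_contra hne
    have h4 := h1 h hh _ hne
    have h5 : ρ h x = x := (ρ h).injective h4
    rw [h5] at hne
    exact hne hx
  have h4 : ∀ h ∈ Λ, ∀ x ∈ ρ g '' K, ρ (g * h * g⁻¹) x ∈ ρ g '' K := by
    rintro h hh _ ⟨y, hy, rfl⟩
    refine ⟨ρ h y, h3 h hh y hy, ?_⟩
    rw [hc, inv_app]
  have hd' : ∀ x, x ∈ ρ g '' K → x ∉ K := fun x hx hx' => Set.disjoint_left.1 hd hx hx'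
  have hcomm : ∀ h ∈ Λ, ∀ h' ∈ Λ, h * (g * h' * g⁻¹) = (g * h' * g⁻¹) * h := by
    intro h hh h' hh'
    apply hρ
    ext x
    rw [mul_app ρ h (g * h' * g⁻¹), mul_app ρ (g * h' * g⁻¹) h]
    by_cases hx : x ∈ K
    · have hx2 : x ∉ ρ g '' K := fun hy => hd' x hy hx
      have hx3 : ρ h x ∉ ρ g '' K := fun hy => hd' _ hy (h3 h hh x hx)
      rw [h2 h' hh' x hx2, h2 h' hh' _ hx3]
    · rw [h1 h hh x hx]
      by_cases hx2 : x ∈ ρ g '' K
      · exact h1 h hh _ (hd' _ (h4 h' hh' x hx2))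
      · rw [h2 h' hh' x hx2]
        exact h1 h hh x hx
  refine ⟨{ toFun := fun h => (h : G) * (g * h * g⁻¹), map_one' := by simp, map_mul' := ?_ }, ?_,
    fun h => rfl⟩
  · intro h h'
    have h5 := hcomm (h' : G) h'.2 (h : G) h.2
    show ((h * h' : Λ) : G) * (g * ((h * h' : Λ) : G) * g⁻¹) =
      ((h : G) * (g * h * g⁻¹)) * ((h' : G) * (g * h' * g⁻¹))
    rw [Subgroup.coe_mul]
    calc (h : G) * h' * (g * (h * h') * g⁻¹) =
        (h : G) * ((h' : G) * (g * h * g⁻¹)) * (g * h' * g⁻¹) := by group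
      _ = (h : G) * ((g * h * g⁻¹) * (h' : G)) * (g * h' * g⁻¹) := by rw [h5]
      _ = ((h : G) * (g * h * g⁻¹)) * ((h' : G) * (g * h' * g⁻¹)) := by group
  · rw [injective_iff_map_eq_one]
    intro h hh
    have h5 : (h : G) * (g * h * g⁻¹) = 1 := hh
    apply Subtype.ext
    show (h : G) = 1
    apply hρ
    rw [map_one]
    ext x
    show ρ (h : G) x = x
    by_cases hx : x ∈ K
    · have hx2 : x ∉ ρ g '' K := fun hy => hd' x hy hx
      have h6 : ρ ((h : G) * (g * h * g⁻¹)) x = x := by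
        rw [h5, map_one]
        rfl
      rw [mul_app, h2 (h : G) h.2 x hx2] at h6
      exact h6
    · exact h1 (h : G) h.2 x hx

end MP8a6869.PP
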