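import Pool.Agent.Work.MP_8a6869_an.PP.Stmts

/-!
# Block PP, item BDY (helper39): boundaries
-/

namespace MP8a6869.PP

namespace XBdy

theorem app_inv (z : ℝ ≃o ℝ) (x : ℝ) : z (z⁻¹ x) = x := by
  have h : (z * z⁻¹) x = x := by
    rw [mul_inv_cancel]
    rfl
  exact h

theorem inv_app (z : ℝ ≃o ℝ) (x : ℝ) : z⁻¹ (z x) = x := by
  have h : (z⁻¹ * z) x = x := by
    rw [inv_mul_cancel]
    rfl
  exact h

theorem mv_conj (f z : ℝ ≃o ℝ) : mv (z * f * z⁻¹) = z '' mv f := by
  ext x
  constructor
  · intro hx
    refine ⟨z⁻¹ x, ?_, app_inv z x⟩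
    intro h
    apply hx
    show z (f (z⁻¹ x)) = x
    rw [h, app_inv]
  · rintro ⟨y, hy, rfl⟩ h
    have h2 : z (f (z⁻¹ (z y))) = z y := h
    rw [inv_app] at h2
    exact hy (z.injective h2)

theorem closure_image (z : ℝ ≃o ℝ) (S : Set ℝ) : closure (z '' S) = z '' closure S :=
  (z.toHomeomorph.image_closure S).symm

theorem bd_conj (f z : ℝ ≃o ℝ) : bd (z * f * z⁻¹) = z '' bd f := by
  unfold bd
  rw [mv_conj, closure_image, Set.image_sdiff z.injective]

end XBdy

open XBdy in
theorem bdy : BdyStmt := by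
  refine ⟨bd_conj, ?_, ?_⟩
  · intro f g K hKc hK hd
    have hB : mv (g * f * g⁻¹) ⊆ g '' K := by
      rw [mv_conj]
      exact Set.image_mono hK
    have hgc : IsClosed (g '' K) := g.toHomeomorph.isClosed_image.2 hKc
    have hA2 : closure (mv f) ⊆ K := closure_minimal hK hKc
    have hB2 : closure (mv (g * f * g⁻¹)) ⊆ g '' K := closure_minimal hB hgc
    have hdis : ∀ x, x ∈ K → x ∉ g '' K := fun x hx hy => Set.disjoint_left.1 hd hy hx
    have hfix1 : ∀ x, x ∉ mv f → f x = x := fun x hx => not_not.1 hx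
    have hfix2 : ∀ x, x ∉ mv (g * f * g⁻¹) → (g * f * g⁻¹) x = x := fun x hx => not_not.1 hx
    have hmv : mv (f * (g * f * g⁻¹)) = mv f ∪ mv (g * f * g⁻¹) := by
      ext x
      constructor
      · intro hx
        by_contra hne
        rw [Set.mem_union, not_or] at hne
        apply hx
        show f ((g * f * g⁻¹) x) = x
        rw [hfix2 x hne.2, hfix1 x hne.1]
      · rintro (hx | hx) h
        · have h1 : x ∉ mv (g * f * g⁻¹) := fun hy => hdis x (hK hx) (hB hy)
          have h2 : f ((g * f * g⁻¹) x) = x := h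
          rw [hfix2 x h1] at h2
          exact hx h2
        · have h2 : f ((g * f * g⁻¹) x) = x := h
          have h3 : (g * f * g⁻¹) x ∈ mv (g * f * g⁻¹) := by
            intro h4
            exact hx ((g * f * g⁻¹).injective h4)
          have h4 : (g * f * g⁻¹) x ∉ mv f := fun hy => hdis _ (hK hy) (hB h3)
          rw [hfix1 _ h4] at h2
          exact hx h2
    rw [← bd_conj]
    constructor
    · unfold bd
      rw [hmv, closure_union]
      ext x
      constructor
      · rintro ⟨hx | hx, hne⟩
        · exact Or.inl ⟨hx, fun h => hne (Or.inl h)⟩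
        · exact Or.inr ⟨hx, fun h => hne (Or.inr h)⟩
      · rintro (⟨hx, hne⟩ | ⟨hx, hne⟩)
        · refine ⟨Or.inl hx, ?_⟩
          rintro (h | h)
          · exact hne h
          · exact hdis x (hA2 hx) (hB h)
        · refine ⟨Or.inr hx, ?_⟩
          rintro (h | h)
          · exact hdis x (hK h) (hB2 hx)
          · exact hne h
    · rw [Set.disjoint_left]
      intro x hx hy
      exact hdis x (hA2 hx.1) (hB2 hy.1)
  · intro f hbd hne
    have hcl : closure (mv f) ⊆ mv f := Set.sdiff_eq_empty.1 hbd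
    have hclosed : IsClosed (mv f) := closure_subset_iff_isClosed.1 hcl
    have hopen : IsOpen (mv f) := isOpen_ne_fun f.continuous continuous_id
    rcases isClopen_iff.1 ⟨hclosed, hopen⟩ with h | h
    · ext x
      show f x = x
      by_contra hx
      have h2 : x ∈ mv f := hx
      rw [h] at h2
      exact h2
    · exact absurd h hne

end MP8a6869.PP
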