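import Pool.Agent.Work.MP_8a6869_an.PP.Stmts

/-!
# MP_8a6869_an, block PP, item CNT: counting the boundary points
-/

namespace MP8a6869.PP

open MP8a6869.WR MP8a6869.CC
open Filter Topology

theorem cnt : CntStmt := by
  intro hF hB f g z K hf hK hmv hd heq
  obtain ⟨h1, h2, h3⟩ := hB
  have hfin : (bd f).Finite := hF f hf
  obtain ⟨e1, e2⟩ := h2 f g K hK.isClosed hmv hd
  have e3 : bd (z * f * z⁻¹) = z '' bd f := h1 f z
  rw [heq, e3] at e1
  have c1 : (z '' bd f).ncard = (bd f).ncard := Set.ncard_image_of_injective _ z.injective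
  have c2 : (g '' bd f).ncard = (bd f).ncard := Set.ncard_image_of_injective _ g.injective
  have c3 : (bd f ∪ g '' bd f).ncard = (bd f).ncard + (g '' bd f).ncard :=
    Set.ncard_union_eq e2 hfin (hfin.image _)
  have c4 : (bd f).ncard = 0 := by
    rw [e1] at c1
    omega
  have c5 : bd f = ∅ := (Set.ncard_eq_zero hfin).1 c4
  refine h3 f c5 ?_
  intro hu
  rw [hu] at hmv
  have hKu : IsCompact (Set.univ : Set ℝ) := by
    rwa [Set.univ_subset_iff.1 hmv] at hK
  exact noncompact_univ ℝ hKu

end MP8a6869.PP
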