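import Pool.Agent.Work.MP_8a6869_an.PP.Stmts

/-!
# MP_8a6869_an, block PP, item CPT: compact support
-/

namespace MP8a6869.PP

open MP8a6869.WR MP8a6869.CC
open Filter Topology

theorem cpt : CptStmt := by
  intro G _ ρ Γ t ht
  have key : ∀ x ∉ ⋃ h ∈ t, closure (mv (ρ h)), ∀ h ∈ Subgroup.closure (t : Set G), ρ h x = x := by
    intro x hx h hh
    induction hh using Subgroup.closure_induction with
    | mem g hg =>
      by_contra hne
      exact hx (Set.mem_iUnion₂.2 ⟨g, hg, subset_closure hne⟩)
    | one => rw [map_one]; rfl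
    | mul a b _ _ iha ihb =>
      rw [map_mul]
      show ρ a (ρ b x) = x
      rw [ihb, iha]
    | inv a _ iha =>
      have h1 : ρ a⁻¹ (ρ a x) = x := by
        have h2 : (ρ a⁻¹ * ρ a) x = x := by
          rw [← map_mul, inv_mul_cancel, map_one]
          rfl
        exact h2
      rwa [iha] at h1
  refine ⟨⋃ h ∈ t, closure (mv (ρ h)), ?_, ?_, ?_⟩
  · refine t.isCompact_biUnion (fun h hh => ?_)
    obtain ⟨-, h1, h2⟩ := ht h hh
    obtain ⟨a, ha⟩ := Filter.eventually_atTop.1 h1
    obtain ⟨b, hb⟩ := Filter.eventually_atBot.1 h2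
    have h3 : mv (ρ h) ⊆ Set.Icc b a := by
      intro x hx
      constructor
      · by_contra hc
        exact hx (hb x (not_le.1 hc).le)
      · by_contra hc
        exact hx (ha x (not_le.1 hc).le)
    exact isCompact_Icc.of_isClosed_subset isClosed_closure (closure_minimal h3 isClosed_Icc)
  · rw [Set.disjoint_left]
    intro x hx hfx
    simp only [Set.mem_iUnion] at hx
    obtain ⟨h, hh, hx⟩ := hx
    have h1 := (ht h hh).1 x hfx
    rw [mem_closure_iff_frequently] at hx
    exact hx (h1.mono fun y hy h => h hy)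
  · intro h hh x hx
    by_contra hxK
    exact hx (key x hxK h hh)

end MP8a6869.PP
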