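import Pool.Agent.Work.MP_8a6869_an.PP.Stmts

set_option autoImplicit false

namespace MP8a6869.PP

open MP8a6869.WR MP8a6869.CC

namespace XDer

theorem step (hABL : AblStmt) (hSUB : SubStmt) (hEXT : CC.ExtStmt) (G : Type) [Group G]
    (H : Subgroup G) (hH : IsAmen (⁅H, H⁆ : Subgroup G)) : IsAmen H := by
  have hle : ∀ x : (Abelianization.of : H →* Abelianization H).ker,
      (H.subtype.comp (Abelianization.of : H →* Abelianization H).ker.subtype) x ∈ ⁅H, H⁆ := by
    rintro ⟨x, hx⟩
    rw [Abelianization.ker_of] at hx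
    rw [← Subgroup.map_subtype_commutator]
    exact Subgroup.mem_map_of_mem _ hx
  refine hEXT hSUB H (Abelianization H) Abelianization.of ?_
    (hABL (Abelianization H) (fun a b => mul_comm a b))
  refine hSUB _ _ ((H.subtype.comp (Abelianization.of : H →* Abelianization H).ker.subtype).codRestrict
    ⁅H, H⁆ hle) ?_ hH
  intro a b hab
  have h1 := congrArg Subtype.val hab
  exact Subtype.ext (Subtype.ext h1)

end XDer

theorem der : DerStmt := by
  intro hABL hSUB hEXT G _ Γ h
  exact XDer.step hABL hSUB hEXT G Γ (XDer.step hABL hSUB hEXT G ⁅Γ, Γ⁆ h)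

end MP8a6869.PP
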