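import Pool.Agent.Work.MP_8a6869_an.PP.Stmts

/-!
# Item DSP of block PP: displacement of a compact set
-/

namespace MP8a6869.PP

open MP8a6869.WR MP8a6869.CC
open Filter Topology

namespace XDsp

theorem fx_closed {G : Type} [Group G] (ρ : G →* (ℝ ≃o ℝ)) (Γ : Subgroup G) : IsClosed (fx ρ Γ) := by
  have h : fx ρ Γ = ⋂ g ∈ Γ, {x : ℝ | ρ g x = x} := by
    ext x
    simp [fx]
  rw [h]
  exact isClosed_biInter fun g _ => isClosed_eq (ρ g).continuous continuous_id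

end XDsp

theorem dsp : DspStmt := by
  intro hP hL G _ ρ Γ K hK hd
  have hcl := XDsp.fx_closed ρ Γ
  have hU : ∀ x ∈ K, ∃ ε : ℝ, 0 < ε ∧ Disjoint (Set.Icc (x - ε) (x + ε)) (fx ρ Γ) := by
    intro x hx
    have hx' : x ∉ fx ρ Γ := Set.disjoint_left.1 hd hx
    have hn : (fx ρ Γ)ᶜ ∈ 𝓝 x := hcl.isOpen_compl.mem_nhds hx'
    obtain ⟨ε, hε, h⟩ := Metric.nhds_basis_closedBall.mem_iff.1 hn
    refine ⟨ε, hε, ?_⟩
    rw [← Real.closedBall_eq_Icc]
    exact Set.disjoint_left.2 fun y hy hy' => h hy hy'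
  choose! e he1 he2 using hU
  obtain ⟨s, hs, hcov⟩ := hK.elim_nhds_subcover (fun x => Set.Icc (x - e x) (x + e x))
    (fun x hx => Icc_mem_nhds (by linarith [he1 x hx]) (by linarith [he1 x hx]))
  obtain ⟨g, hg, hdis⟩ := hL hP G ρ Γ (s.toList.map fun x => (x - e x, x + e x)) (by
    intro I hI
    obtain ⟨x, hx, rfl⟩ := List.mem_map.1 hI
    have hxK : x ∈ K := hs x (Finset.mem_toList.1 hx)
    exact ⟨by have := he1 x hxK; simp only; linarith, he2 x hxK⟩)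
  refine ⟨g, hg, ?_⟩
  rw [Set.disjoint_left]
  rintro _ ⟨a, ha, rfl⟩ hb
  have h1 := hcov ha
  have h2 := hcov hb
  simp only [Set.mem_iUnion] at h1 h2
  obtain ⟨x, hx, hax⟩ := h1
  obtain ⟨y, hy, hby⟩ := h2
  exact Set.disjoint_left.1 (hdis (x - e x, x + e x) (List.mem_map.2 ⟨x, Finset.mem_toList.2 hx, rfl⟩)
    (y - e y, y + e y) (List.mem_map.2 ⟨y, Finset.mem_toList.2 hy, rfl⟩)) ⟨a, hax, rfl⟩ hby

end MP8a6869.PP
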