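import Pool.Agent.Work.MP_8a6869_an.PP.Stmts

/-!
# MP_8a6869_an, block PP, item FIN: the boundary points of a piecewise projective map are finite in number
-/

namespace MP8a6869.PP

open MP8a6869.WR MP8a6869.CC
open Filter Topology

namespace XFin

/-- the pieces -/
def pc (F : Finset ℝ) (k : ℕ) : Set ℝ := {t | t ∉ F ∧ (F.filter (fun a => a < t)).card = k}

theorem pc_sub {F : Finset ℝ} {x y : ℝ} (h : x ≤ y) :
    F.filter (fun a => a < x) ⊆ F.filter (fun a => a < y) := by
  intro a ha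
  rw [Finset.mem_filter] at ha ⊢
  exact ⟨ha.1, lt_of_lt_of_le ha.2 h⟩

theorem pc_conn (F : Finset ℝ) (k : ℕ) : (pc F k).OrdConnected := by
  constructor
  intro x hx y hy z hz
  have h1 := pc_sub (F := F) hz.1
  have h2 := pc_sub (F := F) hz.2
  have e1 : F.filter (fun a => a < x) = F.filter (fun a => a < y) :=
    Finset.eq_of_subset_of_card_le (h1.trans h2) (by rw [hx.2, hy.2])
  refine ⟨fun hzF => ?_, ?_⟩
  · have hzy : z ≠ y := by
      rintro rfl
      exact hy.1 hzF
    have h3 : z ∈ F.filter (fun a => a < y) :=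
      Finset.mem_filter.2 ⟨hzF, lt_of_le_of_ne hz.2 hzy⟩
    rw [← e1] at h3
    exact absurd (Finset.mem_filter.1 h3).2 (not_lt.2 hz.1)
  · have c1 := Finset.card_le_card h1
    have c2 := Finset.card_le_card h2
    rw [hx.2] at c1
    rw [hy.2] at c2
    exact le_antisymm c2 c1

theorem pc_disj (F : Finset ℝ) (k : ℕ) : Disjoint (pc F k) (F : Set ℝ) := by
  rw [Set.disjoint_left]
  intro t ht h
  exact ht.1 h

theorem pc_nhds {F : Finset ℝ} {k : ℕ} {t : ℝ} (ht : t ∈ pc F k) : pc F k ∈ 𝓝 t := by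
  have h1 : ((F : Set ℝ)ᶜ) ∈ 𝓝 t := F.finite_toSet.isClosed.isOpen_compl.mem_nhds ht.1
  obtain ⟨ε, hε, hb⟩ := Metric.mem_nhds_iff.1 h1
  refine Filter.mem_of_superset (Metric.ball_mem_nhds t hε) ?_
  intro s hs
  have hsF : s ∉ F := hb hs
  refine ⟨hsF, ?_⟩
  rw [← ht.2]
  congr 1
  ext a
  rw [Finset.mem_filter, Finset.mem_filter]
  rw [Real.ball_eq_Ioo] at hs hb
  constructor
  · rintro ⟨ha, has⟩
    refine ⟨ha, ?_⟩
    by_contra hat
    exact hb ⟨by linarith [not_lt.1 hat, hs.1], by linarith [hs.2]⟩ ha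
  · rintro ⟨ha, hat⟩
    refine ⟨ha, ?_⟩
    by_contra has
    exact hb ⟨by linarith [not_lt.1 has, hs.1], by linarith [hs.2]⟩ ha

end XFin

open XFin in
theorem fin : FinStmt := by
  intro f hf
  obtain ⟨F, hF⟩ := hf
  have hcov : bd f ⊆ (F : Set ℝ) ∪ ⋃ k ∈ Set.Iic F.card, bd f ∩ pc F k := by
    intro t ht
    by_cases h : t ∈ F
    · exact Or.inl h
    · refine Or.inr (Set.mem_biUnion (x := (F.filter (fun a => a < t)).card) ?_ ⟨ht, h, rfl⟩)
      exact Finset.card_filter_le _ _
  refine Set.Finite.subset (F.finite_toSet.union (Set.Finite.biUnion (Set.finite_Iic _)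
    fun k _ => ?_)) hcov
  obtain ⟨a, b, c, d, hdet, hS⟩ := hF (pc F k) (pc_conn F k) (pc_disj F k)
  by_cases hz : c = 0 ∧ d - a = 0 ∧ b = 0
  · obtain ⟨hc, hda, hb⟩ := hz
    have he : bd f ∩ pc F k = ∅ := by
      rw [Set.eq_empty_iff_forall_notMem]
      rintro t ⟨ht, htS⟩
      have h1 : t ∈ closure (mv f) := ht.1
      obtain ⟨s, hs1, hs2⟩ := mem_closure_iff_nhds.1 h1 _ (pc_nhds htS)
      apply hs2
      obtain ⟨h3, h4⟩ := hS s hs1
      rw [h4]
      have had : d = a := by linarith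
      subst hc hb had
      rw [zero_mul, zero_add] at h3 ⊢
      rw [add_zero]
      field_simp
    rw [he]
    exact Set.finite_empty
  · have hp : Polynomial.C c * Polynomial.X ^ 2 + Polynomial.C (d - a) * Polynomial.X -
        Polynomial.C b ≠ 0 := by
      intro h0
      apply hz
      have e0 := congrArg (fun q => Polynomial.coeff q 0) h0
      have e1 := congrArg (fun q => Polynomial.coeff q 1) h0
      have e2 := congrArg (fun q => Polynomial.coeff q 2) h0
      simp [Polynomial.coeff_X, Polynomial.coeff_C, Polynomial.coeff_X_pow] at e0 e1 e2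
      exact ⟨e2, e1, e0⟩
    refine (Polynomial.finite_setOfPred_isRoot hp).subset ?_
    rintro t ⟨ht, htS⟩
    have h1 : f t = t := by
      by_contra h
      exact ht.2 h
    obtain ⟨h3, h4⟩ := hS t htS
    rw [h1, eq_div_iff h3] at h4
    simp only [Set.mem_ofPred_eq, Polynomial.IsRoot.def, Polynomial.eval_sub, Polynomial.eval_add,
      Polynomial.eval_mul, Polynomial.eval_C, Polynomial.eval_pow, Polynomial.eval_X]
    linarith [h4]

end MP8a6869.PP
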