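import Pool.Agent.Work.MP_8a6869_an.PP.Stmts

/-!
# MP_8a6869_an, block PP, item GRM: elements of the second derived subgroup are germs of the identity
-/

set_option autoImplicit false

namespace MP8a6869.PP

open Filter Topology
open scoped commutatorElement

namespace XGrm

variable {G : Type} [Group G] (ρ : G →* (ℝ ≃o ℝ)) (Γ : Subgroup G) (l : Filter ℝ) (u : ℝ → ℝ)

/-- the germ of `g` is affine in the coordinate `u` -/
def Aff (α β : ℝ) (g : G) : Prop := ∀ᶠ t in l, u (ρ g t) = α * u t + β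

variable {ρ Γ l u}

theorem mul_app (g h : G) (t : ℝ) : ρ (g * h) t = ρ g (ρ h t) := by
  rw [map_mul]; rfl

theorem app_inv (g : G) (t : ℝ) : ρ g (ρ g⁻¹ t) = t := by
  rw [← mul_app, mul_inv_cancel, map_one]; rfl

theorem aff_mul {α β α' β' : ℝ} {g h : G} (hh : Tendsto (ρ h) l l)
    (hg : Aff ρ l u α β g) (hh' : Aff ρ l u α' β' h) :
    Aff ρ l u (α * α') (α * β' + β) (g * h) := by
  filter_upwards [hh.eventually hg, hh'] with t h1 h2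
  rw [mul_app, h1, h2]
  ring

theorem aff_inv {α β : ℝ} {g : G} (hα : α ≠ 0) (hg' : Tendsto (ρ g⁻¹) l l)
    (hg : Aff ρ l u α β g) : Aff ρ l u α⁻¹ (-(α⁻¹ * β)) g⁻¹ := by
  filter_upwards [hg'.eventually hg] with t h1
  rw [app_inv] at h1
  rw [h1]
  field_simp
  ring

theorem aff_comm (hΓ : ∀ g ∈ Γ, Tendsto (ρ g) l l) {α β α' β' : ℝ} {g h : G} (hα : α ≠ 0)
    (hα' : α' ≠ 0) (gΓ : g ∈ Γ) (hΓ' : h ∈ Γ) (hg : Aff ρ l u α β g) (hh : Aff ρ l u α' β' h) :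
    Aff ρ l u 1 (α * β' + β - α' * β - β') ⁅g, h⁆ := by
  have h1 := aff_mul (hΓ _ (Γ.inv_mem hΓ'))
    (aff_mul (hΓ _ (Γ.inv_mem gΓ)) (aff_mul (hΓ _ hΓ') hg hh)
      (aff_inv hα (hΓ _ (Γ.inv_mem gΓ)) hg)) (aff_inv hα' (hΓ _ (Γ.inv_mem hΓ')) hh)
  rw [commutatorElement_def]
  have e1 : α * α' * α⁻¹ * α'⁻¹ = 1 := by field_simp
  have e2 : α * α' * α⁻¹ * -(α'⁻¹ * β') + (α * α' * -(α⁻¹ * β) + (α * β' + β))
      = α * β' + β - α' * β - β' := by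
    field_simp
    ring
  rw [e1, e2] at h1
  exact h1

/-- the elements of `Γ` whose germ is a translation in the coordinate `u` -/
def T (hΓ : ∀ g ∈ Γ, Tendsto (ρ g) l l) : Subgroup G where
  carrier := {g | g ∈ Γ ∧ ∃ β, Aff ρ l u 1 β g}
  mul_mem' := by
    rintro a b ⟨ha, β, hβ⟩ ⟨hb, β', hβ'⟩
    have h1 := aff_mul (hΓ _ hb) hβ hβ'
    rw [one_mul] at h1
    exact ⟨Γ.mul_mem ha hb, _, h1⟩
  one_mem' := by
    refine ⟨Γ.one_mem, 0, ?_⟩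
    refine Eventually.of_forall fun t => ?_
    rw [map_one, one_mul, add_zero]
    rfl
  inv_mem' := by
    rintro a ⟨ha, β, hβ⟩
    have h1 := aff_inv one_ne_zero (hΓ _ (Γ.inv_mem ha)) hβ
    rw [inv_one] at h1
    exact ⟨Γ.inv_mem ha, _, h1⟩

/-- the elements of `Γ` whose germ is the identity -/
def E (hΓ : ∀ g ∈ Γ, Tendsto (ρ g) l l) : Subgroup G where
  carrier := {g | g ∈ Γ ∧ ∀ᶠ t in l, ρ g t = t}
  mul_mem' := by
    rintro a b ⟨ha, h1⟩ ⟨hb, h2⟩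
    refine ⟨Γ.mul_mem ha hb, ?_⟩
    filter_upwards [h1, h2] with t h3 h4
    rw [mul_app, h4, h3]
  one_mem' := by
    refine ⟨Γ.one_mem, Eventually.of_forall fun t => ?_⟩
    rw [map_one]
    rfl
  inv_mem' := by
    rintro a ⟨ha, h1⟩
    refine ⟨Γ.inv_mem ha, ?_⟩
    filter_upwards [(hΓ _ (Γ.inv_mem ha)).eventually h1] with t h3
    rw [app_inv] at h3
    exact h3.symm

end XGrm

open XGrm in
theorem grm : GrmStmt := by
  intro G _ ρ Γ l u hu hΓ hA g hg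
  have hT : ⁅Γ, Γ⁆ ≤ T (u := u) hΓ := by
    rw [Subgroup.commutator_le]
    intro g₁ h₁ g₂ h₂
    obtain ⟨α, β, hα, hαβ⟩ := hA g₁ h₁
    obtain ⟨α', β', hα', hαβ'⟩ := hA g₂ h₂
    have hmem : ⁅g₁, g₂⁆ ∈ Γ := by
      rw [commutatorElement_def]
      exact Γ.mul_mem (Γ.mul_mem (Γ.mul_mem h₁ h₂) (Γ.inv_mem h₁)) (Γ.inv_mem h₂)
    exact ⟨hmem, _, aff_comm hΓ hα hα' h₁ h₂ hαβ hαβ'⟩
  have hE : ⁅T (u := u) hΓ, T (u := u) hΓ⁆ ≤ E hΓ := by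
    rw [Subgroup.commutator_le]
    rintro g₁ ⟨h₁, β, hβ⟩ g₂ ⟨h₂, β', hβ'⟩
    have hmem : ⁅g₁, g₂⁆ ∈ Γ := by
      rw [commutatorElement_def]
      exact Γ.mul_mem (Γ.mul_mem (Γ.mul_mem h₁ h₂) (Γ.inv_mem h₁)) (Γ.inv_mem h₂)
    refine ⟨hmem, ?_⟩
    filter_upwards [aff_comm hΓ one_ne_zero one_ne_zero h₁ h₂ hβ hβ'] with t ht
    apply hu
    rw [ht]
    ring
  exact (hE (Subgroup.commutator_mono hT hT hg)).2

end MP8a6869.PP
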