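import Pool.Agent.Work.MP_8a6869_an.PP.Stmts

/-!
# MP_8a6869_an, block PP, item INF: germs at infinity
-/

namespace MP8a6869.PP

open MP8a6869.WR MP8a6869.CC
open Filter Topology

namespace XInf

theorem germ (f : ℝ → ℝ) (l : Filter ℝ) (h0 : Tendsto (fun t : ℝ => t⁻¹) l (𝓝 0))
    (h1 : ∀ᶠ t in l, t ≠ 0) (h2 : ∀ x : ℝ, ¬ Tendsto f l (𝓝 x)) (a b c d : ℝ)
    (hd : a * d - b * c ≠ 0)
    (h : ∀ᶠ t in l, c * t + d ≠ 0 ∧ f t = (a * t + b) / (c * t + d)) :
    ∃ α β : ℝ, α ≠ 0 ∧ ∀ᶠ t in l, f t = α * t + β := by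
  by_cases hc : c = 0
  · subst hc
    rw [mul_zero, sub_zero] at hd
    have ha : a ≠ 0 := left_ne_zero_of_mul hd
    have hd' : d ≠ 0 := right_ne_zero_of_mul hd
    refine ⟨a / d, b / d, div_ne_zero ha hd', h.mono fun t ht => ?_⟩
    rw [ht.2, zero_mul, zero_add, add_div, mul_div_right_comm]
  · exfalso
    apply h2 (a / c)
    have h3 : Tendsto (fun t : ℝ => (a + b * t⁻¹) / (c + d * t⁻¹)) l
        (𝓝 ((a + b * 0) / (c + d * 0))) :=
      (tendsto_const_nhds.add (h0.const_mul b)).div (tendsto_const_nhds.add (h0.const_mul d))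
        (by simpa using hc)
    rw [mul_zero, mul_zero, add_zero, add_zero] at h3
    refine h3.congr' ?_
    filter_upwards [h1, h] with t ht ht'
    rw [ht'.2]
    have e1 : a + b * t⁻¹ = (a * t + b) * t⁻¹ := by field_simp
    have e2 : c + d * t⁻¹ = (c * t + d) * t⁻¹ := by field_simp
    rw [e1, e2, mul_div_mul_right _ _ (inv_ne_zero ht)]

end XInf

/-- item INF -/
theorem inf : InfStmt := by
  rintro f ⟨F, hF⟩
  constructor
  · obtain ⟨T, hT⟩ : ∃ T : ℝ, ∀ x ∈ F, x ≤ T := F.bddAbove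
    obtain ⟨a, b, c, d, hd, h⟩ := hF (Set.Ioi T) Set.ordConnected_Ioi (by
      rw [Set.disjoint_left]
      intro x hx hx'
      exact absurd (hT x hx') (not_le.2 hx))
    refine XInf.germ f atTop tendsto_inv_atTop_zero (eventually_ne_atTop 0)
      (fun x => not_tendsto_nhds_of_tendsto_atTop f.tendsto_atTop x) a b c d hd ?_
    filter_upwards [eventually_gt_atTop T] with t ht
    exact h t ht
  · obtain ⟨T, hT⟩ : ∃ T : ℝ, ∀ x ∈ F, T ≤ x := F.bddBelow
    obtain ⟨a, b, c, d, hd, h⟩ := hF (Set.Iio T) Set.ordConnected_Iio (by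
      rw [Set.disjoint_left]
      intro x hx hx'
      exact absurd (hT x hx') (not_le.2 hx))
    refine XInf.germ f atBot tendsto_inv_atBot_zero (eventually_ne_atBot 0)
      (fun x => not_tendsto_nhds_of_tendsto_atBot f.tendsto_atBot x) a b c d hd ?_
    filter_upwards [eventually_lt_atBot T] with t ht
    exact h t ht

end MP8a6869.PP
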