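import Pool.Agent.Work.MP_8a6869_an.PP.Stmts

/-!
# MP_8a6869_an, block PP: [LOC] local amenability
-/

namespace MP8a6869.PP

open MP8a6869.WR MP8a6869.CC
open Filter Topology

noncomputable section

namespace XLoc

variable {Γ : Type} [Group Γ]

/-- the trace of `A` in the subgroup generated by `s` -/
def tr (A : Set Γ) (s : Finset Γ) : Set (Subgroup.closure (s : Set Γ)) := {x | (x : Γ) ∈ A}

theorem tr_univ (s : Finset Γ) : tr (Set.univ : Set Γ) s = Set.univ := by
  ext x
  simp [tr]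

theorem tr_union (A B : Set Γ) (s : Finset Γ) : tr (A ∪ B) s = tr A s ∪ tr B s := by
  ext x
  simp [tr]

theorem tr_disj {A B : Set Γ} (h : Disjoint A B) (s : Finset Γ) : Disjoint (tr A s) (tr B s) := by
  rw [Set.disjoint_left] at h ⊢
  intro x hx hx'
  exact h hx hx'

theorem tr_smul (g : Γ) (A : Set Γ) {s : Finset Γ} (hg : g ∈ Subgroup.closure (s : Set Γ)) :
    tr ((fun x => g * x) '' A) s =
      (fun x => (⟨g, hg⟩ : Subgroup.closure (s : Set Γ)) * x) '' tr A s := by
  ext y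
  constructor
  · rintro ⟨x, hx, hxy⟩
    have hxy' : g * x = (y : Γ) := hxy
    have hxs : x ∈ Subgroup.closure (s : Set Γ) := by
      have h2 : g * x ∈ Subgroup.closure (s : Set Γ) := by rw [hxy']; exact y.2
      exact (Subgroup.mul_mem_cancel_left _ hg).1 h2
    exact ⟨⟨x, hxs⟩, hx, Subtype.ext hxy'⟩
  · rintro ⟨x, hx, rfl⟩
    exact ⟨(x : Γ), hx, rfl⟩

theorem le_one {Δ : Type} [Group Δ] {m : Set Δ → ℝ} (h0 : ∀ A, 0 ≤ m A) (h1 : m Set.univ = 1)
    (h2 : ∀ A B, Disjoint A B → m (A ∪ B) = m A + m B) (A : Set Δ) : m A ≤ 1 := by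
  have h3 := h2 A Aᶜ disjoint_compl_right
  rw [Set.union_compl_self, h1] at h3
  have := h0 Aᶜ
  linarith

end XLoc

open XLoc in
/-- [LOC] Local amenability. -/
theorem loc : LocStmt := by
  classical
  intro Γ _ h
  choose μ hμ0 hμ1 hμ2 hμ3 using h
  let U : Ultrafilter (Finset Γ) := Ultrafilter.of atTop
  have hU : (U : Filter (Finset Γ)) ≤ atTop := Ultrafilter.of_le atTop
  let pr : Set Γ → Finset Γ → ℝ := fun A s => μ s (tr A s)
  have hlim : ∀ A : Set Γ, ∃ x ∈ Set.Icc (0 : ℝ) 1, Tendsto (pr A) U (𝓝 x) := by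
    intro A
    obtain ⟨x, hx, hx2⟩ := (isCompact_Icc (a := (0 : ℝ)) (b := 1)).ultrafilter_le_nhds
      (U.map (pr A)) (by
        rw [Ultrafilter.coe_map, le_principal_iff, mem_map]
        exact Filter.univ_mem' fun s =>
          ⟨hμ0 s _, le_one (hμ0 s) (hμ1 s) (hμ2 s) _⟩)
    exact ⟨x, hx, hx2⟩
  choose m hm1 hm2 using hlim
  refine ⟨m, fun A => (hm1 A).1, ?_, ?_, ?_⟩
  · refine tendsto_nhds_unique (hm2 Set.univ) ?_
    have : pr (Set.univ : Set Γ) = fun _ => (1 : ℝ) := by
      funext s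
      change μ s (tr Set.univ s) = 1
      rw [tr_univ, hμ1]
    rw [this]
    exact tendsto_const_nhds
  · intro A B hAB
    refine tendsto_nhds_unique (hm2 (A ∪ B)) ?_
    have : pr (A ∪ B) = fun s => pr A s + pr B s := by
      funext s
      change μ s (tr (A ∪ B) s) = μ s (tr A s) + μ s (tr B s)
      rw [tr_union, hμ2 s _ _ (tr_disj hAB s)]
    rw [this]
    exact (hm2 A).add (hm2 B)
  · intro g A
    refine tendsto_nhds_unique (hm2 _) ((hm2 A).congr' ?_)
    have h1 : ∀ᶠ s : Finset Γ in atTop, g ∈ s := by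
      filter_upwards [eventually_ge_atTop ({g} : Finset Γ)] with s hs
      exact hs (Finset.mem_singleton_self g)
    filter_upwards [hU h1] with s hs
    have hg : g ∈ Subgroup.closure (s : Set Γ) := Subgroup.subset_closure (by exact_mod_cast hs)
    change μ s (tr A s) = μ s (tr ((fun x => g * x) '' A) s)
    rw [tr_smul g A hg, hμ3]

end

end MP8a6869.PP
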