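import Pool.Agent.Work.MP_8a6869_an.PP.Stmts

/-!
# MP_8a6869_an, block PP, item PSH: displacement of an interval without global fixed points
-/

namespace MP8a6869.PP

namespace XPsh

lemma inv_app {G : Type} [Group G] (ρ : G →* (ℝ ≃o ℝ)) (h : G) (z : ℝ) :
    ρ h (ρ h⁻¹ z) = z := by
  have h1 : (ρ h * ρ h⁻¹) z = z := by
    rw [← map_mul, mul_inv_cancel, map_one]; rfl
  exact h1

lemma fixed_of_le {G : Type} [Group G] (ρ : G →* (ℝ ≃o ℝ)) (Γ : Subgroup G) (q : ℝ)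
    (h : ∀ g ∈ Γ, q ≤ ρ g q) : q ∈ fx ρ Γ := by
  intro g hg
  refine le_antisymm ?_ (h g hg)
  have h1 := h g⁻¹ (Γ.inv_mem hg)
  have h2 : ρ g q ≤ ρ g (ρ g⁻¹ q) := (ρ g).monotone h1
  rwa [inv_app] at h2

lemma fixed_of_ge {G : Type} [Group G] (ρ : G →* (ℝ ≃o ℝ)) (Γ : Subgroup G) (q : ℝ)
    (h : ∀ g ∈ Γ, ρ g q ≤ q) : q ∈ fx ρ Γ := by
  intro g hg
  refine le_antisymm (h g hg) ?_
  have h1 := h g⁻¹ (Γ.inv_mem hg)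
  have h2 : ρ g (ρ g⁻¹ q) ≤ ρ g q := (ρ g).monotone h1
  rwa [inv_app] at h2

lemma up {G : Type} [Group G] (ρ : G →* (ℝ ≃o ℝ)) (Γ : Subgroup G) (x y : ℝ)
    (hd : Disjoint (Set.Icc x y) (fx ρ Γ)) : ∃ g ∈ Γ, y < ρ g x := by
  by_contra hcon
  push Not at hcon
  set S : Set ℝ := {z | ∃ g ∈ Γ, z = ρ g x} with hS
  have hxS : x ∈ S := ⟨1, Γ.one_mem, by rw [map_one]; rfl⟩
  have hb : BddAbove S := ⟨y, by rintro z ⟨g, hg, rfl⟩; exact hcon g hg⟩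
  have hq1 : x ≤ sSup S := le_csSup hb hxS
  have hq2 : sSup S ≤ y := csSup_le ⟨x, hxS⟩ (by rintro z ⟨g, hg, rfl⟩; exact hcon g hg)
  have hfix : sSup S ∈ fx ρ Γ := by
    refine fixed_of_le ρ Γ _ fun h hh => ?_
    refine csSup_le ⟨x, hxS⟩ ?_
    rintro z ⟨g, hg, rfl⟩
    have h1 : ρ (h⁻¹ * g) x ≤ sSup S :=
      le_csSup hb ⟨h⁻¹ * g, Γ.mul_mem (Γ.inv_mem hh) hg, rfl⟩
    have h2 : ρ h (ρ (h⁻¹ * g) x) ≤ ρ h (sSup S) := (ρ h).monotone h1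
    have h3 : ρ h (ρ (h⁻¹ * g) x) = ρ g x := by
      rw [map_mul]
      exact inv_app ρ h (ρ g x)
    rwa [h3] at h2
  exact Set.disjoint_left.mp hd ⟨hq1, hq2⟩ hfix

lemma down {G : Type} [Group G] (ρ : G →* (ℝ ≃o ℝ)) (Γ : Subgroup G) (x y : ℝ)
    (hd : Disjoint (Set.Icc x y) (fx ρ Γ)) : ∃ g ∈ Γ, ρ g y < x := by
  by_contra hcon
  push Not at hcon
  set S : Set ℝ := {z | ∃ g ∈ Γ, z = ρ g y} with hS
  have hyS : y ∈ S := ⟨1, Γ.one_mem, by rw [map_one]; rfl⟩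
  have hb : BddBelow S := ⟨x, by rintro z ⟨g, hg, rfl⟩; exact hcon g hg⟩
  have hq1 : sInf S ≤ y := csInf_le hb hyS
  have hq2 : x ≤ sInf S := le_csInf ⟨y, hyS⟩ (by rintro z ⟨g, hg, rfl⟩; exact hcon g hg)
  have hfix : sInf S ∈ fx ρ Γ := by
    refine fixed_of_ge ρ Γ _ fun h hh => ?_
    refine le_csInf ⟨y, hyS⟩ ?_
    rintro z ⟨g, hg, rfl⟩
    have h1 : sInf S ≤ ρ (h⁻¹ * g) y :=
      csInf_le hb ⟨h⁻¹ * g, Γ.mul_mem (Γ.inv_mem hh) hg, rfl⟩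
    have h2 : ρ h (sInf S) ≤ ρ h (ρ (h⁻¹ * g) y) := (ρ h).monotone h1
    have h3 : ρ h (ρ (h⁻¹ * g) y) = ρ g y := by
      rw [map_mul]
      exact inv_app ρ h (ρ g y)
    rwa [h3] at h2
  exact Set.disjoint_left.mp hd ⟨hq2, hq1⟩ hfix

end XPsh

theorem psh : PshStmt := by
  intro G _ ρ Γ x y _ hd
  exact ⟨XPsh.up ρ Γ x y hd, XPsh.down ρ Γ x y hd⟩

end MP8a6869.PP
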