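import Pool.Agent.Work.MP_8a6869_an.PP.Stmts

/-!
# Item RIG of block PP: germs at a fixed point
-/

set_option autoImplicit false

namespace MP8a6869.PP

open MP8a6869.WR MP8a6869.CC
open Filter Topology

namespace XRig

/-- the algebra on one side -/
theorem side (f : ℝ ≃o ℝ) (p : ℝ) (hp : f p = p) (S : Set ℝ) (hS : p ∈ closure S) (hpS : p ∉ S)
    (a b c d : ℝ) (hdet : a * d - b * c ≠ 0)
    (h : ∀ t ∈ S, c * t + d ≠ 0 ∧ f t = (a * t + b) / (c * t + d)) :
    ∃ α β : ℝ, α ≠ 0 ∧ ∀ t ∈ S, (f t - p)⁻¹ = α * (t - p)⁻¹ + β := by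
  have hcont : Continuous fun t : ℝ => f t * (c * t + d) - (a * t + b) := by
    have := f.continuous
    fun_prop
  have hzero : f p * (c * p + d) - (a * p + b) = 0 := by
    have hcl : IsClosed {t : ℝ | f t * (c * t + d) - (a * t + b) = 0} :=
      isClosed_eq hcont continuous_const
    have hsub : S ⊆ {t : ℝ | f t * (c * t + d) - (a * t + b) = 0} := by
      intro t ht
      obtain ⟨h1, h2⟩ := h t ht
      show f t * (c * t + d) - (a * t + b) = 0
      rw [h2, div_mul_cancel₀ _ h1, sub_self]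
    exact closure_minimal hsub hcl hS
  rw [hp] at hzero
  obtain ⟨t0, ht0⟩ : S.Nonempty := by
    rcases Set.eq_empty_or_nonempty S with h0 | h0
    · rw [h0, closure_empty] at hS
      exact absurd hS (Set.notMem_empty p)
    · exact h0
  have hne : ∀ t ∈ S, t - p ≠ 0 := fun t ht h0 => hpS (by rwa [sub_eq_zero.1 h0] at ht)
  have hkey : ∀ t ∈ S, f t - p = (a - p * c) * (t - p) / (c * t + d) := by
    intro t ht
    obtain ⟨h1, h2⟩ := h t ht
    rw [h2, eq_div_iff h1, sub_mul, div_mul_cancel₀ _ h1]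
    linear_combination -hzero
  have hk : a - p * c ≠ 0 := by
    intro h0
    have h1 := hkey t0 ht0
    rw [h0, zero_mul, zero_div] at h1
    have h2 : f t0 = f p := by rw [hp]; linarith
    exact hne t0 ht0 (by rw [f.injective h2, sub_self])
  have hcd : c * p + d ≠ 0 := by
    intro h0
    apply hdet
    rw [h0, mul_zero] at hzero
    have h1 : d = -(c * p) := by linarith
    have h2 : b = -(a * p) := by linarith
    rw [h1, h2]
    ring
  refine ⟨(c * p + d) / (a - p * c), c / (a - p * c), div_ne_zero hcd hk, fun t ht => ?_⟩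
  obtain ⟨h1, -⟩ := h t ht
  have h3 := hne t ht
  rw [hkey t ht]
  field_simp
  ring

end XRig

theorem rig : RigStmt := by
  intro f hf p hp
  obtain ⟨F, hF⟩ := hf
  have hiso : ∀ᶠ x in 𝓝[≠] p, x ∉ (F : Set ℝ) := by
    have h1 : IsClosed ((F : Set ℝ) \ {p}) := (F.finite_toSet.subset Set.sdiff_subset).isClosed
    have h2 : ((F : Set ℝ) \ {p})ᶜ ∈ 𝓝 p := h1.isOpen_compl.mem_nhds (by simp)
    have h3 : ((F : Set ℝ) \ {p})ᶜ ∈ 𝓝[≠] p := mem_nhdsWithin_of_mem_nhds h2
    filter_upwards [h3, self_mem_nhdsWithin] with x hx hxp hxF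
    exact hx ⟨hxF, hxp⟩
  rw [eventually_nhdsWithin_iff, Metric.eventually_nhds_iff] at hiso
  obtain ⟨ε, hε, hball⟩ := hiso
  constructor
  · have hdis : Disjoint (Set.Ioo p (p + ε)) (F : Set ℝ) := by
      rw [Set.disjoint_left]
      intro x hx
      exact hball (by rw [Real.dist_eq, abs_lt]; constructor <;> linarith [hx.1, hx.2])
        (by simpa using ne_of_gt hx.1)
    obtain ⟨a, b, c, d, hdet, h⟩ := hF _ Set.ordConnected_Ioo hdis
    obtain ⟨α, β, hα, hall⟩ := XRig.side f p hp _
      (by rw [closure_Ioo (by linarith)]; exact ⟨le_rfl, by linarith⟩) (fun h => lt_irrefl _ h.1)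
      a b c d hdet h
    refine ⟨α, β, hα, ?_⟩
    filter_upwards [Ioo_mem_nhdsGT (show p < p + ε by linarith)] with t ht
    exact hall t ht
  · have hdis : Disjoint (Set.Ioo (p - ε) p) (F : Set ℝ) := by
      rw [Set.disjoint_left]
      intro x hx
      exact hball (by rw [Real.dist_eq, abs_lt]; constructor <;> linarith [hx.1, hx.2])
        (by simpa using ne_of_lt hx.2)
    obtain ⟨a, b, c, d, hdet, h⟩ := hF _ Set.ordConnected_Ioo hdis
    obtain ⟨α, β, hα, hall⟩ := XRig.side f p hp _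
      (by rw [closure_Ioo (by linarith)]; exact ⟨by linarith, le_rfl⟩) (fun h => lt_irrefl _ h.2)
      a b c d hdet h
    refine ⟨α, β, hα, ?_⟩
    filter_upwards [Ioo_mem_nhdsLT (show p - ε < p by linarith)] with t ht
    exact hall t ht

end MP8a6869.PP
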