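import Pool.Agent.Work.MP_8a6869_an.PP.Stmts

/-! Item [8a6869 PP SEL] (helper63): a finitely generated nonamenable subgroup of a second derived
subgroup of a finitely generated subgroup. -/

namespace MP8a6869.PP

open MP8a6869.WR MP8a6869.CC
open Filter Topology

noncomputable section

theorem XSel.exists_closure (hLoc : LocStmt) (G : Type) [Group G] (hG : ¬ IsAmen G) :
    ∃ s : Finset G, ¬ IsAmen (Subgroup.closure (s : Set G)) := by
  by_contra h
  push Not at h
  exact hG (hLoc G h)

theorem XSel.not_amen_image (hSub : SubStmt) (G : Type) [Group G] (D : Subgroup G)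
    (A : Set D) (B : Set G) (hAB : ∀ x ∈ A, (x : G) ∈ B)
    (hA : ¬ IsAmen (Subgroup.closure A)) : ¬ IsAmen (Subgroup.closure B) := by
  intro hB
  apply hA
  have hmem : ∀ x : Subgroup.closure A,
      (D.subtype.comp (Subgroup.closure A).subtype) x ∈ Subgroup.closure B := by
    intro x
    have hle : Subgroup.closure A ≤ (Subgroup.closure B).comap D.subtype := by
      rw [Subgroup.closure_le]
      intro y hy
      exact Subgroup.subset_closure (hAB y hy)
    exact hle x.2
  refine hSub _ _ ((D.subtype.comp (Subgroup.closure A).subtype).codRestrict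
    (Subgroup.closure B) hmem) ?_ hB
  intro x y hxy
  have h1 := congrArg (fun z : Subgroup.closure B => (z : G)) hxy
  exact Subtype.ext (Subtype.ext h1)

theorem XSel.step (hLoc : LocStmt) (hSub : SubStmt) (G : Type) [Group G] (D : Subgroup G)
    (hD : ¬ IsAmen D) :
    ∃ t : Finset G, (t : Set G) ⊆ D ∧ ¬ IsAmen (Subgroup.closure (t : Set G)) := by
  classical
  obtain ⟨t', ht'⟩ := XSel.exists_closure hLoc D hD
  refine ⟨t'.image (fun x : D => (x : G)), ?_, ?_⟩
  · intro x hx
    obtain ⟨y, -, hy⟩ := Finset.mem_image.mp (Finset.mem_coe.mp hx)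
    rw [← hy]
    exact y.2
  · refine XSel.not_amen_image hSub G D (t' : Set D) _ ?_ ht'
    intro x hx
    exact Finset.mem_coe.mpr (Finset.mem_image.mpr ⟨x, Finset.mem_coe.mp hx, rfl⟩)

theorem sel : SelStmt := by
  intro hLoc hSub hDer G _ hG
  obtain ⟨s, hs⟩ := XSel.exists_closure hLoc G hG
  have h2 : ¬ IsAmen (D2 (Subgroup.closure (s : Set G))) := fun h => hs (hDer G _ h)
  obtain ⟨t, ht, ht'⟩ := XSel.step hLoc hSub G _ h2
  exact ⟨s, t, ht, ht'⟩

end

end MP8a6869.PP
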