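import Pool.Agent.Work.MP_8a6869_an.PP.Stmts

/-!
# MP_8a6869_an, block PP, item TRV: the elements of the second derived subgroup are trivial near the
global fixed points and near infinity
-/

set_option autoImplicit false

namespace MP8a6869.PP

open Filter Topology

namespace XTrv

theorem com_le {G : Type} [Group G] (Γ : Subgroup G) : ⁅Γ, Γ⁆ ≤ Γ := by
  refine Subgroup.commutator_le.mpr (fun g hg h hh => ?_)
  rw [commutatorElement_def]
  exact Γ.mul_mem (Γ.mul_mem (Γ.mul_mem hg hh) (Γ.inv_mem hg)) (Γ.inv_mem hh)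

theorem D2_le {G : Type} [Group G] (Γ : Subgroup G) : D2 Γ ≤ Γ :=
  (com_le _).trans (com_le _)

theorem tr (f : ℝ ≃o ℝ) (p : ℝ) (hp : f p = p) : Tendsto f (𝓝[>] p) (𝓝[>] p) := by
  refine tendsto_nhdsWithin_iff.mpr ⟨(f.continuous.tendsto' p p hp).mono_left nhdsWithin_le_nhds, ?_⟩
  refine eventually_nhdsWithin_of_forall (fun t ht => ?_)
  have h1 : f p < f t := f.strictMono ht
  rw [hp] at h1
  exact h1

theorem tl (f : ℝ ≃o ℝ) (p : ℝ) (hp : f p = p) : Tendsto f (𝓝[<] p) (𝓝[<] p) := by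
  refine tendsto_nhdsWithin_iff.mpr ⟨(f.continuous.tendsto' p p hp).mono_left nhdsWithin_le_nhds, ?_⟩
  refine eventually_nhdsWithin_of_forall (fun t ht => ?_)
  have h1 : f t < f p := f.strictMono ht
  rw [hp] at h1
  exact h1

theorem inj (p : ℝ) : Function.Injective (fun t : ℝ => (t - p)⁻¹) := by
  intro a b hab
  have h1 : a - p = b - p := inv_injective hab
  linarith

end XTrv

theorem trv : TrvStmt := by
  intro hG hR hI G _ ρ Γ hpp h hh
  have hΓ : h ∈ Γ := XTrv.D2_le Γ hh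
  refine ⟨fun p hp => ?_, ?_, ?_⟩
  · have hf : ∀ g ∈ Γ, ρ g p = p := fun g hg => hp g hg
    have h1 : ∀ᶠ t in 𝓝[>] p, ρ h t = t := by
      refine hG G ρ Γ (𝓝[>] p) (fun t => (t - p)⁻¹) (XTrv.inj p)
        (fun g hg => XTrv.tr (ρ g) p (hf g hg)) (fun g hg => ?_) h hh
      exact (hR (ρ g) (hpp g hg) p (hf g hg)).1
    have h2 : ∀ᶠ t in 𝓝[<] p, ρ h t = t := by
      refine hG G ρ Γ (𝓝[<] p) (fun t => (t - p)⁻¹) (XTrv.inj p)
        (fun g hg => XTrv.tl (ρ g) p (hf g hg)) (fun g hg => ?_) h hh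
      exact (hR (ρ g) (hpp g hg) p (hf g hg)).2
    have h3 : ∀ᶠ t in 𝓝[≠] p, ρ h t = t := by
      rw [← nhdsLT_sup_nhdsGT]
      exact eventually_sup.mpr ⟨h2, h1⟩
    filter_upwards [eventually_nhdsWithin_iff.mp h3] with t ht
    by_cases htp : t = p
    · rw [htp]; exact hf h hΓ
    · exact ht htp
  · refine hG G ρ Γ atTop id Function.injective_id (fun g _ => (ρ g).tendsto_atTop)
      (fun g hg => ?_) h hh
    exact (hI (ρ g) (hpp g hg)).1
  · refine hG G ρ Γ atBot id Function.injective_id (fun g _ => (ρ g).tendsto_atBot)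
      (fun g hg => ?_) h hh
    exact (hI (ρ g) (hpp g hg)).2

end MP8a6869.PP
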