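import Pool.Agent.Work.MP_8a6869_an.PP.Stmts

/-!
# MP_8a6869_an, block PP: [GRP] the group theoretic assembly
-/

namespace MP8a6869.PP

open MP8a6869.WR MP8a6869.CC
open Filter Topology

/-- A nonamenable group of piecewise projective homeomorphisms contains a nonamenable
subgroup `H` and an injective homomorphism `α : H → G` such that `α h` is not conjugate to `h` in
the group of all increasing homeomorphisms of the line, for every `h ≠ 1`. -/
def Grp2Stmt : Prop :=
  ∀ (G : Type) [Group G] (ρ : G →* (ℝ ≃o ℝ)), Function.Injective ρ → (∀ g, IsPP (ρ g)) →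
    ¬ IsAmen G → ∃ (H : Subgroup G) (α : H →* G), ¬ IsAmen H ∧ Function.Injective α ∧
      ∀ (z : ℝ ≃o ℝ) (h : H), ρ (α h) = z * ρ h * z⁻¹ → h = 1

/-- [GRP] The group theoretic assembly. -/
theorem grp2 (hAbl : AblStmt) (hLoc : LocStmt) (hDer : DerStmt) (hSel : SelStmt) (hSub : SubStmt)
    (hExt : CC.ExtStmt) (hGrm : GrmStmt) (hRig : RigStmt) (hInf : InfStmt) (hTrv : TrvStmt)
    (hCpt : CptStmt) (hPsh : PshStmt) (hLst : LstStmt) (hDsp : DspStmt) (hFin : FinStmt)
    (hBdy : BdyStmt) (hCnt : CntStmt) (hAlp : AlpStmt) : Grp2Stmt := by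
  intro G _ ρ hρ hPP hG
  obtain ⟨s, t, hts, hna⟩ := hSel hLoc hSub (hDer hAbl hSub hExt) G hG
  obtain ⟨K, hK, hKf, hKm⟩ := hCpt G ρ (Subgroup.closure (s : Set G)) t
    (fun h hh => hTrv hGrm hRig hInf G ρ (Subgroup.closure (s : Set G)) (fun g _ => hPP g) h
      (hts (by exact_mod_cast hh)))
  obtain ⟨g, _, hgK⟩ := hDsp hPsh hLst G ρ (Subgroup.closure (s : Set G)) K hK hKf
  obtain ⟨α, hα, hαh⟩ := hAlp G ρ hρ (Subgroup.closure (t : Set G)) g K hKm hgK
  refine ⟨Subgroup.closure (t : Set G), α, hna, hα, ?_⟩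
  intro z h hz
  have h2 : ρ (h : G) * (ρ g * ρ (h : G) * (ρ g)⁻¹) = z * ρ (h : G) * z⁻¹ := by
    rw [← hz, hαh, ← map_inv, ← map_mul, ← map_mul, ← map_mul]
  have h3 : ρ (h : G) = 1 :=
    hCnt hFin hBdy (ρ (h : G)) (ρ g) z K (hPP _) hK (hKm _ h.2) hgK h2
  have h4 : (h : G) = 1 := hρ (by rw [h3, map_one])
  exact Subtype.ext h4

/-- The final group theoretic statement: `ρ` is a homomorphism of `G` to the increasing
homeomorphisms of the line, injective on the nonamenable subgroup `A` with piecewise projective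
image. -/
theorem grp3 (hG2 : Grp2Stmt) (G : Type) [Group G] (ρ : G →* (ℝ ≃o ℝ)) (A : Subgroup G)
    (hinj : ∀ a ∈ A, ρ a = 1 → a = 1) (hPP : ∀ a ∈ A, IsPP (ρ a)) (hA : ¬ IsAmen A)
    (hSub : SubStmt) :
    ∃ (H : Subgroup G) (α : H →* G), ¬ IsAmen H ∧ Function.Injective α ∧
      ∀ (z : G) (h : H), α h = z * h * z⁻¹ → h = 1 := by
  have hinj' : Function.Injective (ρ.comp A.subtype) := by
    rw [injective_iff_map_eq_one]
    intro a ha
    exact Subtype.ext (hinj a a.2 ha)
  obtain ⟨H, α, hH, hα, hz⟩ := hG2 A (ρ.comp A.subtype) hinj' (fun a => hPP a a.2) hA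
  have he : ∀ (f : H ≃* H.map A.subtype), (∀ h : H, (f h : G) = ((h : A) : G)) →
      ∃ (H' : Subgroup G) (α' : H' →* G), ¬ IsAmen H' ∧ Function.Injective α' ∧
      ∀ (z : G) (h : H'), α' h = z * h * z⁻¹ → h = 1 := by
    intro f hf
    refine ⟨H.map A.subtype, (A.subtype.comp α).comp f.symm.toMonoidHom, ?_, ?_, ?_⟩
    · intro hc
      exact hH (hSub H (H.map A.subtype) f.toMonoidHom f.injective hc)
    · exact (Subtype.val_injective.comp hα).comp f.symm.injective
    · intro z h hzh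
      have h1 : ((α (f.symm h) : A) : G) = z * (h : G) * z⁻¹ := hzh
      have h2 : (h : G) = ((f.symm h : A) : G) := by
        rw [← hf, MulEquiv.apply_symm_apply]
      have h3 := hz (ρ z) (f.symm h) (by
        rw [MonoidHom.comp_apply, MonoidHom.comp_apply, Subgroup.coe_subtype, h1, h2,
          map_mul, map_mul, map_inv])
      have h4 : h = f 1 := by rw [← h3, MulEquiv.apply_symm_apply]
      rw [h4, map_one]
  exact he (H.equivMapOfInjective A.subtype Subtype.val_injective) fun h => rfl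

end MP8a6869.PP
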