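import Pool.Agent.Work.MP_8a6869_an.PP.Stmts

/-!
# MP_8a6869_an, block PP, item LST: simultaneous displacement of finitely many intervals
-/

namespace MP8a6869.PP

open MP8a6869.WR MP8a6869.CC
open Filter Topology

noncomputable section

namespace XLst

theorem mul_app {G : Type} [Group G] (ρ : G →* (ℝ ≃o ℝ)) (g h : G) (x : ℝ) : ρ (g * h) x = ρ g (ρ h x) := by
  rw [map_mul]; rfl

theorem app_inv {G : Type} [Group G] (ρ : G →* (ℝ ≃o ℝ)) (g : G) (x : ℝ) : ρ g (ρ g⁻¹ x) = x := by
  rw [← mul_app, mul_inv_cancel, map_one]; rfl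

theorem disj_iff {G : Type} [Group G] (ρ : G →* (ℝ ≃o ℝ)) (Γ : Subgroup G) (x y : ℝ) :
    Disjoint (Set.Icc x y) (fx ρ Γ) ↔ ∀ p ∈ fx ρ Γ, p < x ∨ y < p := by
  rw [Set.disjoint_right]
  constructor
  · intro h p hp
    have := h hp
    rw [Set.mem_Icc, not_and_or, not_le, not_le] at this
    exact this
  · intro h p hp
    rw [Set.mem_Icc, not_and_or, not_le, not_le]
    exact h p hp

theorem key (hP : PshStmt) {G : Type} [Group G] (ρ : G →* (ℝ ≃o ℝ)) (Γ : Subgroup G) :
    ∀ (n : ℕ) (L : List (ℝ × ℝ)), L.length = n →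
      (∀ I ∈ L, I.1 ≤ I.2 ∧ ∀ p ∈ fx ρ Γ, p < I.1 ∨ I.2 < p) →
      ∃ g ∈ Γ, ∀ I ∈ L, ∀ J ∈ L, ρ g I.2 < J.1 ∨ J.2 < ρ g I.1 := by
  intro n
  induction n with
  | zero =>
    intro L hL _
    rw [List.length_eq_zero_iff] at hL
    subst hL
    exact ⟨1, Γ.one_mem, fun I hI => absurd hI List.not_mem_nil⟩
  | succ n ih =>
    intro L hL hI
    cases L with
    | nil => simp at hL
    | cons I L' =>
      have hlen : L'.length = n := by simpa using hL
      have hI0 := hI I List.mem_cons_self
      have hL' : ∀ J ∈ L', J.1 ≤ J.2 ∧ ∀ p ∈ fx ρ Γ, p < J.1 ∨ J.2 < p :=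
        fun J hJ => hI J (List.mem_cons_of_mem _ hJ)
      by_cases hcase : ∃ J ∈ L', ∀ p ∈ fx ρ Γ, p < min I.1 J.1 ∨ max I.2 J.2 < p
      · obtain ⟨J, hJ, hp⟩ := hcase
        have hpos : 0 < L'.length := List.length_pos_of_mem hJ
        obtain ⟨g, hg, h⟩ := ih ((min I.1 J.1, max I.2 J.2) :: L'.erase J)
          (by rw [List.length_cons, List.length_erase_of_mem hJ, ← hlen]; omega)
          (by
            intro K hK
            rcases List.mem_cons.1 hK with rfl | hK
            · exact ⟨le_trans (min_le_left _ _) (le_trans hI0.1 (le_max_left _ _)), hp⟩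
            · exact hL' K (List.mem_of_mem_erase hK))
        refine ⟨g, hg, ?_⟩
        have hcov : ∀ K ∈ I :: L', ∃ K' ∈ (min I.1 J.1, max I.2 J.2) :: L'.erase J,
            K'.1 ≤ K.1 ∧ K.2 ≤ K'.2 := by
          intro K hK
          rcases List.mem_cons.1 hK with rfl | hK
          · exact ⟨_, List.mem_cons_self, min_le_left _ _, le_max_left _ _⟩
          · by_cases hKJ : K = J
            · subst hKJ
              exact ⟨_, List.mem_cons_self, min_le_right _ _, le_max_right _ _⟩
            · exact ⟨K, List.mem_cons_of_mem _ ((List.mem_erase_of_ne hKJ).2 hK), le_rfl, le_rfl⟩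
        intro K hK M hM
        obtain ⟨K', hK', a1, a2⟩ := hcov K hK
        obtain ⟨M', hM', b1, b2⟩ := hcov M hM
        rcases h K' hK' M' hM' with h1 | h1
        · left
          exact lt_of_le_of_lt ((ρ g).monotone a2) (lt_of_lt_of_le h1 b1)
        · right
          exact lt_of_le_of_lt b2 (lt_of_lt_of_le h1 ((ρ g).monotone a1))
      · push Not at hcase
        have hfx : ∀ k ∈ Γ, ∀ p ∈ fx ρ Γ, ρ k p = p := fun k hk p hp => hp k hk
        have hIJ : ∀ k ∈ Γ, ∀ J ∈ L', (ρ k I.2 < J.1 ∨ J.2 < ρ k I.1) ∧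
            (ρ k J.2 < I.1 ∨ I.2 < ρ k J.1) := by
          intro k hk J hJ
          obtain ⟨p, hp, h1, h2⟩ := hcase J hJ
          have hkp := hfx k hk p hp
          have hsep : (I.2 < p ∧ p < J.1) ∨ (J.2 < p ∧ p < I.1) := by
            rcases hI0.2 p hp with h3 | h3 <;> rcases (hL' J hJ).2 p hp with h4 | h4
            · exact absurd h1 (not_le.2 (lt_min h3 h4))
            · exact Or.inr ⟨h4, h3⟩
            · exact Or.inl ⟨h3, h4⟩
            · exact absurd h2 (not_le.2 (max_lt h3 h4))
          rcases hsep with ⟨h3, h4⟩ | ⟨h3, h4⟩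
          · have h5 := (ρ k).strictMono h3
            have h6 := (ρ k).strictMono h4
            rw [hkp] at h5 h6
            exact ⟨Or.inl (h5.trans h4), Or.inr (h3.trans h6)⟩
          · have h5 := (ρ k).strictMono h3
            have h6 := (ρ k).strictMono h4
            rw [hkp] at h5 h6
            exact ⟨Or.inr (h3.trans h6), Or.inl (h5.trans h4)⟩
        obtain ⟨⟨a, ha, ha1⟩, ⟨b, hb, hb1⟩⟩ :=
          hP G ρ Γ I.1 I.2 hI0.1 ((disj_iff ρ Γ I.1 I.2).2 hI0.2)
        let H : ℝ × ℝ → ℝ × ℝ := fun J =>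
          (min (min J.1 (ρ a J.1)) (min (ρ b J.1) (ρ a⁻¹ J.1)),
            max (max J.2 (ρ a J.2)) (max (ρ b J.2) (ρ a⁻¹ J.2)))
        have hH : ∀ J, (H J).1 ≤ J.1 ∧ (H J).1 ≤ ρ a J.1 ∧ (H J).1 ≤ ρ b J.1 ∧ (H J).1 ≤ ρ a⁻¹ J.1 ∧
            J.2 ≤ (H J).2 ∧ ρ a J.2 ≤ (H J).2 ∧ ρ b J.2 ≤ (H J).2 ∧ ρ a⁻¹ J.2 ≤ (H J).2 := by
          intro J
          refine ⟨?_, ?_, ?_, ?_, ?_, ?_, ?_, ?_⟩ <;> simp [H]
        obtain ⟨g, hg, h⟩ := ih (L'.map H) (by rw [List.length_map, hlen])
          (by
            intro K hK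
            obtain ⟨J, hJ, rfl⟩ := List.mem_map.1 hK
            have h0 := hH J
            refine ⟨le_trans h0.1 (le_trans (hL' J hJ).1 h0.2.2.2.2.1), ?_⟩
            intro p hp
            have hpa := hfx a ha p hp
            have hpb := hfx b hb p hp
            have hpi := hfx a⁻¹ (Γ.inv_mem ha) p hp
            rcases (hL' J hJ).2 p hp with h1 | h1
            · left
              have e1 := (ρ a).strictMono h1
              have e2 := (ρ b).strictMono h1
              have e3 := (ρ a⁻¹).strictMono h1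
              rw [hpa] at e1
              rw [hpb] at e2
              rw [hpi] at e3
              exact lt_min (lt_min h1 e1) (lt_min e2 e3)
            · right
              have e1 := (ρ a).strictMono h1
              have e2 := (ρ b).strictMono h1
              have e3 := (ρ a⁻¹).strictMono h1
              rw [hpa] at e1
              rw [hpb] at e2
              rw [hpi] at e3
              exact max_lt (max_lt h1 e1) (max_lt e2 e3))
        have h' : ∀ J ∈ L', ∀ M ∈ L', ρ g (H J).2 < (H M).1 ∨ (H M).2 < ρ g (H J).1 :=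
          fun J hJ M hM => h _ (List.mem_map.2 ⟨J, hJ, rfl⟩) _ (List.mem_map.2 ⟨M, hM, rfl⟩)
        have fin : ∃ k ∈ Γ, (ρ k I.2 < I.1 ∨ I.2 < ρ k I.1) ∧
            ∀ J ∈ L', ∀ M ∈ L', ρ k J.2 < M.1 ∨ M.2 < ρ k J.1 := by
          by_cases c1 : I.2 ≤ ρ g I.2
          · refine ⟨g * a, Γ.mul_mem hg ha, Or.inr ?_, ?_⟩
            · rw [mul_app]
              exact lt_of_le_of_lt c1 ((ρ g).strictMono ha1)
            · intro J hJ M hM
              rw [mul_app, mul_app]
              rcases h' J hJ M hM with h1 | h1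
              · left
                exact lt_of_le_of_lt ((ρ g).monotone (hH J).2.2.2.2.2.1) (lt_of_lt_of_le h1 (hH M).1)
              · right
                exact lt_of_le_of_lt (hH M).2.2.2.2.1 (lt_of_lt_of_le h1 ((ρ g).monotone (hH J).2.1))
          · by_cases c2 : ρ g I.1 ≤ I.1
            · refine ⟨g * b, Γ.mul_mem hg hb, Or.inl ?_, ?_⟩
              · rw [mul_app]
                exact lt_of_lt_of_le ((ρ g).strictMono hb1) c2
              · intro J hJ M hM
                rw [mul_app, mul_app]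
                rcases h' J hJ M hM with h1 | h1
                · left
                  exact lt_of_le_of_lt ((ρ g).monotone (hH J).2.2.2.2.2.2.1) (lt_of_lt_of_le h1 (hH M).1)
                · right
                  exact lt_of_le_of_lt (hH M).2.2.2.2.1
                    (lt_of_lt_of_le h1 ((ρ g).monotone (hH J).2.2.1))
            · refine ⟨a * g, Γ.mul_mem ha hg, Or.inr ?_, ?_⟩
              · rw [mul_app]
                exact ha1.trans ((ρ a).strictMono (not_le.1 c2))
              · intro J hJ M hM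
                rw [mul_app, mul_app]
                rcases h' J hJ M hM with h1 | h1
                · left
                  have h2 : ρ g J.2 < ρ a⁻¹ M.1 :=
                    lt_of_le_of_lt ((ρ g).monotone (hH J).2.2.2.2.1) (lt_of_lt_of_le h1 (hH M).2.2.2.1)
                  have h3 := (ρ a).strictMono h2
                  rwa [app_inv] at h3
                · right
                  have h2 : ρ a⁻¹ M.2 < ρ g J.1 :=
                    lt_of_le_of_lt (hH M).2.2.2.2.2.2.2 (lt_of_lt_of_le h1 ((ρ g).monotone (hH J).1))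
                  have h3 := (ρ a).strictMono h2
                  rwa [app_inv] at h3
        obtain ⟨k, hk, hkI, hkL⟩ := fin
        refine ⟨k, hk, ?_⟩
        intro K hK M hM
        rcases List.mem_cons.1 hK with h1 | h1
        · rcases List.mem_cons.1 hM with h2 | h2
          · rw [h1, h2]
            exact hkI
          · rw [h1]
            exact (hIJ k hk M h2).1
        · rcases List.mem_cons.1 hM with h2 | h2
          · rw [h2]
            exact (hIJ k hk K h1).2
          · exact hkL K h1 M h2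

end XLst

theorem lst : LstStmt := by
  intro hP G _ ρ Γ L hL
  obtain ⟨g, hg, h⟩ := XLst.key hP ρ Γ L.length L rfl
    (fun I hI => ⟨(hL I hI).1, (XLst.disj_iff ρ Γ I.1 I.2).1 (hL I hI).2⟩)
  refine ⟨g, hg, ?_⟩
  intro I hI J hJ
  rw [OrderIso.image_Icc, Set.disjoint_left]
  intro x hx hx'
  rcases h I hI J hJ with h1 | h1
  · exact absurd (lt_of_le_of_lt hx.2 (lt_of_lt_of_le h1 hx'.1)) (lt_irrefl _)
  · exact absurd (lt_of_le_of_lt hx'.2 (lt_of_lt_of_le h1 hx.1)) (lt_irrefl _)

end

end MP8a6869.PP
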