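import Pool.Agent.Work.MP_8a6869_an.CC.StmtsE

/-!
# MP_8a6869_an, block PP: groups of piecewise projective homeomorphisms

THEOREM. Let `G` be a countable icc group of piecewise projective homeomorphisms of the real line
(orientation preserving, finitely many pieces). If `G` is not amenable then `L(G)` is not existentially
closed. (Monod's groups, the groups of Lodha and Moore, nonamenable groups of piecewise linear homeomorphisms.)

PROOF. By the homogeneity theorem (`WR/MainA.lean`) it is enough to find a nonamenable subgroup `Λ` of `G` and an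
injective homomorphism `α : Λ → G` such that `α h` is not conjugate to `h` in `G`, for every `h ≠ 1`. Let `Γ` be a
finitely generated nonamenable subgroup. Its second derived subgroup `D2 Γ` is not amenable, and its
elements are the identity near the global fixed points of `Γ` and near `±∞`, as the germs of the
elements of `Γ` there are affine in a suitable coordinate. Let `Λ` be a finitely generated nonamenable subgroup
of `D2 Γ`: its support is in a compact set `K` without global fixed points of `Γ`. There is `g` in `Γ` with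
`g K` disjoint from `K`. Put `α h = h * (g * h * g⁻¹)`. The number of boundary points of the set of the fixed
points is finite for piecewise projective maps and invariant under conjugation, and it is twice as large
for `α h` as for `h`.

Every docstring is the complete proof. Auxiliary lemmas: in the namespace `MP8a6869.PP.X<item>`.
-/

namespace MP8a6869.PP

open MP8a6869.WR MP8a6869.CC
open Filter Topology

noncomputable section

/-- `f` is piecewise projective: there is a finite set `F` such that on every interval `S` without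
points of `F` the map `f` is a fractional linear transformation. -/
def IsPP (f : ℝ ≃o ℝ) : Prop :=
  ∃ F : Finset ℝ, ∀ S : Set ℝ, S.OrdConnected → Disjoint S (F : Set ℝ) →
    ∃ a b c d : ℝ, a * d - b * c ≠ 0 ∧ ∀ t ∈ S, c * t + d ≠ 0 ∧ f t = (a * t + b) / (c * t + d)

/-- The points moved by `f`. -/
def mv (f : ℝ ≃o ℝ) : Set ℝ := {x | f x ≠ x}

/-- The boundary points of the set of the moved points. -/
def bd (f : ℝ ≃o ℝ) : Set ℝ := closure (mv f) \ mv f

/-- The second derived subgroup. -/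
def D2 {G : Type} [Group G] (Γ : Subgroup G) : Subgroup G := ⁅⁅Γ, Γ⁆, ⁅Γ, Γ⁆⁆

/-- The global fixed points of `Γ`. -/
def fx {G : Type} [Group G] (ρ : G →* (ℝ ≃o ℝ)) (Γ : Subgroup G) : Set ℝ :=
  {x | ∀ g ∈ Γ, ρ g x = x}

/-! ## Part A: amenability -/

/-- [ABL] MEDIUM. Abelian groups are amenable. Proof. For `s : Finset Γ` and `n : ℕ` let `Ω = s → Fin (n + 1)` and
`μ A = #{i : Ω | ∏_{a ∈ s} a ^ (i a) ∈ A} / #Ω` (write the product as `Finset.noncommProd` or turn `Γ` into a
`CommGroup` by `{ (inferInstance : Group Γ) with mul_comm := h }`). `μ` is finitely additive with `μ univ = 1`, and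
`|μ (b A) - μ A| ≤ 1 / (n + 1)` for `b ∈ s`: `b⁻¹ ∏ a ^ (i a) ∈ A` where for `i b ≠ 0` the element `b⁻¹ ∏ a ^ (i a)` is
the product for `i` with `i b` replaced by `i b - 1`; this is an injection from `{i b ≠ 0}` onto `{i b ≠ n}`, and
`{i b = 0}`, `{i b = n}` have proportion `1 / (n + 1)`. Take the limit of the `μ A` along an ultrafilter
`≤ atTop` on `Finset Γ × ℕ`, exactly as in `Amen.locallyFinite` in `WR/Amen.lean`. -/
def AblStmt : Prop :=
  ∀ (Γ : Type) [Group Γ], (∀ a b : Γ, a * b = b * a) → IsAmen Γ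

/-- [LOC] EASY-MEDIUM. Local amenability. Proof. As `Amen.locallyFinite` in `WR/Amen.lean`: choose an invariant mean
`m_s` for `closure s` and put `prop A s = m_s {x : closure s | (x : Γ) ∈ A}`; it is finitely additive, and
`prop (g A) s = prop A s` if `g ∈ s`; limit along an ultrafilter `≤ atTop` on `Finset Γ`. -/
def LocStmt : Prop :=
  ∀ (Γ : Type) [Group Γ], (∀ s : Finset Γ, IsAmen (Subgroup.closure (s : Set Γ))) → IsAmen Γ

/-- [DER] EASY. Proof. It is enough to show: `IsAmen ⁅H, H⁆ → IsAmen H` for `H : Subgroup G` (apply it to `⁅Γ, Γ⁆` and to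
`Γ`). Use `ExtStmt` for `Abelianization.of : H →* Abelianization H`: the target is amenable by `AblStmt`, the
kernel is `commutator H` (`Abelianization.ker_of`), which embeds in `⁅H, H⁆` by the inclusion
(`Subgroup.map_subtype_commutator`), so it is amenable by `SubStmt`. -/
def DerStmt : Prop :=
  AblStmt → SubStmt → CC.ExtStmt → ∀ (G : Type) [Group G] (Γ : Subgroup G), IsAmen (D2 Γ) → IsAmen Γ

/-- [SEL] EASY. Proof. `LocStmt` for `G` gives `s` with `closure s` not amenable; by `DerStmt` `D2 (closure s)` is not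
amenable; `LocStmt` for the group `D2 (closure s)` gives a finite subset `t'`, put `t = t'.image (↑)`. The
closure of `t'` embeds in `closure t` by the inclusion, so `closure t` is not amenable by `SubStmt`. -/
def SelStmt : Prop :=
  LocStmt → SubStmt → (∀ (G : Type) [Group G] (Γ : Subgroup G), IsAmen (D2 Γ) → IsAmen Γ) →
    ∀ (G : Type) [Group G], ¬ IsAmen G → ∃ s t : Finset G,
      (t : Set G) ⊆ D2 (Subgroup.closure (s : Set G)) ∧ ¬ IsAmen (Subgroup.closure (t : Set G))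

/-! ## Part B: germs -/

/-- [GRM] EASY-MEDIUM. Proof. Let `T` be the set of the `g ∈ Γ` with `∃ β, ∀ᶠ t in l, u (ρ g t) = u t + β` and `E` the set
of the `g ∈ Γ` with `∀ᶠ t in l, ρ g t = t`. Both are subgroups (for the inverse use the relation at
`ρ g⁻¹ t`, which is allowed as `ρ g⁻¹` maps `l` to `l`). `⁅Γ, Γ⁆ ≤ T` (`Subgroup.commutator_le`): for `g_1, g_2 ∈ Γ` with
`(α_i, β_i)` one has `u (ρ g_i⁻¹ t) = (u t - β_i) / α_i` eventually, and the composition
`A_1 A_2 A_1⁻¹ A_2⁻¹` of affine maps is a translation. `⁅T, T⁆ ≤ E`: translations commute, so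
`u (ρ ⁅g_1, g_2⁆ t) = u t` eventually, and `u` is injective. -/
def GrmStmt : Prop :=
  ∀ (G : Type) [Group G] (ρ : G →* (ℝ ≃o ℝ)) (Γ : Subgroup G) (l : Filter ℝ) (u : ℝ → ℝ),
    Function.Injective u → (∀ g ∈ Γ, Tendsto (ρ g) l l) →
    (∀ g ∈ Γ, ∃ α β : ℝ, α ≠ 0 ∧ ∀ᶠ t in l, u (ρ g t) = α * u t + β) →
    ∀ g ∈ D2 Γ, ∀ᶠ t in l, ρ g t = t

/-- [RIG] EASY-MEDIUM. Germs at a fixed point. Proof (right side). Choose `ε > 0` with `Ioo p (p + ε)` disjoint from `F`, let
`a, b, c, d` be the coefficients there. `f` is continuous (`OrderIso.continuous`), so `f t (c t + d) = a t + b`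
gives `p (c p + d) = a p + b` in the limit. Hence `a t + b - p (c t + d) = (a - p c) (t - p)` and
`f t - p = (a - p c) (t - p) / (c t + d)`; `a - p c ≠ 0` as `f t > p`, and
`(f t - p)⁻¹ = (c (t - p) + (c p + d)) / ((a - p c) (t - p)) = α (t - p)⁻¹ + β` with `α = (c p + d) / (a - p c)`,
`β = c / (a - p c)`. `c p + d ≠ 0`, since otherwise `a p + b = 0` and `a d - b c = 0`. The left side is the
same with `Ioo (p - ε) p`. -/
def RigStmt : Prop :=
  ∀ f : ℝ ≃o ℝ, IsPP f → ∀ p : ℝ, f p = p →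
    (∃ α β : ℝ, α ≠ 0 ∧ ∀ᶠ t in 𝓝[>] p, (f t - p)⁻¹ = α * (t - p)⁻¹ + β) ∧
    ∃ α β : ℝ, α ≠ 0 ∧ ∀ᶠ t in 𝓝[<] p, (f t - p)⁻¹ = α * (t - p)⁻¹ + β

/-- [INF] EASY-MEDIUM. Germs at infinity. Proof (`atTop`). Let `T` be larger than all elements of `F`, take `S = Ioi T`,
coefficients `a, b, c, d`. If `c ≠ 0` then `(a t + b) / (c t + d) → a / c` as `t → ∞`, but `f` is an order
isomorphism, so `f t → ∞` (`OrderIso.tendsto_atTop`), a contradiction. So `c = 0`, `d ≠ 0`, `a ≠ 0`,
`f t = (a / d) t + b / d`. The same for `atBot` with `Iio T`. -/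
def InfStmt : Prop :=
  ∀ f : ℝ ≃o ℝ, IsPP f → (∃ α β : ℝ, α ≠ 0 ∧ ∀ᶠ t in atTop, f t = α * t + β) ∧
    ∃ α β : ℝ, α ≠ 0 ∧ ∀ᶠ t in atBot, f t = α * t + β

/-- [TRV] EASY. Proof. `GrmStmt` for `l = 𝓝[>] p` and `l = 𝓝[<] p` with `u t = (t - p)⁻¹` (injective), for `l = atTop`,
`l = atBot` with `u = id`. An order isomorphism which fixes `p` maps `𝓝[>] p` to itself (continuous and strictly
monotone). Moreover `ρ h p = p` as `D2 Γ ≤ Γ`; `𝓝 p` is the supremum of `𝓝[<] p`, `pure p` and `𝓝[>] p`. -/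
def TrvStmt : Prop :=
  GrmStmt → RigStmt → InfStmt → ∀ (G : Type) [Group G] (ρ : G →* (ℝ ≃o ℝ)) (Γ : Subgroup G),
    (∀ g ∈ Γ, IsPP (ρ g)) → ∀ h ∈ D2 Γ, (∀ p ∈ fx ρ Γ, ∀ᶠ t in 𝓝 p, ρ h t = t) ∧
      (∀ᶠ t in atTop, ρ h t = t) ∧ ∀ᶠ t in atBot, ρ h t = t

/-- [CPT] EASY. Compact support. Proof. `K = ⋃ h ∈ t, closure (mv (ρ h))`. For `h ∈ t` the set `mv (ρ h)` is bounded, by the
last two hypotheses, so its closure is compact; it does not contain any `p ∈ fx ρ Γ` as `ρ h` is the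
identity near `p`. The `g` with `ρ g x = x` for all `x ∉ K` form a subgroup which contains `t`. -/
def CptStmt : Prop :=
  ∀ (G : Type) [Group G] (ρ : G →* (ℝ ≃o ℝ)) (Γ : Subgroup G) (t : Finset G),
    (∀ h ∈ t, (∀ p ∈ fx ρ Γ, ∀ᶠ x in 𝓝 p, ρ h x = x) ∧ (∀ᶠ x in atTop, ρ h x = x) ∧
      ∀ᶠ x in atBot, ρ h x = x) →
    ∃ K : Set ℝ, IsCompact K ∧ Disjoint K (fx ρ Γ) ∧
      ∀ h ∈ Subgroup.closure (t : Set G), mv (ρ h) ⊆ K

/-! ## Part C: displacement -/

/-- [PSH] EASY-MEDIUM. Proof. Suppose `ρ g x ≤ y` for all `g ∈ Γ`. Let `q = sSup {ρ g x | g ∈ Γ}`; `x ≤ q ≤ y`. For `h ∈ Γ` the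
orbit is invariant under `ρ h`, so `ρ h q = q` (for `h` and `h⁻¹`: `ρ h (ρ g x) ≤ q` for all `g` gives
`ρ g x ≤ ρ h⁻¹ q`, so `q ≤ ρ h⁻¹ q`, for all `h ∈ Γ`). So `q ∈ fx ρ Γ`, a contradiction. The second claim is the same
with the infimum of the orbit of `y`. -/
def PshStmt : Prop :=
  ∀ (G : Type) [Group G] (ρ : G →* (ℝ ≃o ℝ)) (Γ : Subgroup G) (x y : ℝ), x ≤ y →
    Disjoint (Set.Icc x y) (fx ρ Γ) → (∃ g ∈ Γ, y < ρ g x) ∧ ∃ g ∈ Γ, ρ g y < x

/-- [LST] MEDIUM. Simultaneous displacement. Proof. Induction on the length `n` of `L`, for all lists. `L = I :: L'`.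
CASE (a): for some `J ∈ L'` the hull `[min I.1 J.1, max I.2 J.2]` is disjoint from `fx ρ Γ`. Apply the induction
hypothesis to `hull :: L'.erase J` (every interval of `L` is contained in one of this list).
CASE (b): for every `J ∈ L'` there is `p ∈ fx ρ Γ` in the hull, so `I.2 < p < J.1` or `J.2 < p < I.1`; as elements of `Γ`
fix `p`, `ρ k '' I` is disjoint from `J` and `ρ k '' J` from `I`, for every `k ∈ Γ`. By `PshStmt` for `I` there are
`a, b ∈ Γ` with `I.2 < ρ a I.1` and `ρ b I.2 < I.1`. For `J ∈ L'` let `J' = [min .., max ..]` be the hull of `J`, `ρ a J`,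
`ρ b J`, `ρ a⁻¹ J`; it is disjoint from `fx ρ Γ` (a `p ∈ fx ρ Γ` with `p < J.1` satisfies `p < ρ k J.1` for all
`k ∈ Γ`, similarly on the right side). The induction hypothesis for the list of the `J'` gives `g`. If
`I.2 ≤ ρ g I.2` take `k = g * a`: `ρ k I.1 = ρ g (ρ a I.1) > ρ g I.2 ≥ I.2`. If `ρ g I.1 ≤ I.1` take `k = g * b`:
`ρ k I.2 < ρ g I.1 ≤ I.1`. Otherwise `I.1 < ρ g I.1`: take `k = a * g`: `ρ k I.1 > ρ a I.1 > I.2`. For `J, M ∈ L'` the set
`ρ k '' J` is disjoint from `M`: `ρ a '' J ⊆ J'`, `ρ b '' J ⊆ J'`, and for `k = a * g` it is equivalent to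
`ρ g '' J` disjoint from `ρ a⁻¹ '' M ⊆ M'`. (The image of `Icc` is `Icc`: `OrderIso.image_Icc`.) -/
def LstStmt : Prop :=
  PshStmt → ∀ (G : Type) [Group G] (ρ : G →* (ℝ ≃o ℝ)) (Γ : Subgroup G) (L : List (ℝ × ℝ)),
    (∀ I ∈ L, I.1 ≤ I.2 ∧ Disjoint (Set.Icc I.1 I.2) (fx ρ Γ)) →
    ∃ g ∈ Γ, ∀ I ∈ L, ∀ J ∈ L, Disjoint (ρ g '' Set.Icc I.1 I.2) (Set.Icc J.1 J.2)

/-- [DSP] EASY. Proof. `fx ρ Γ` is closed, so every `x ∈ K` has `ε > 0` with `Icc (x - ε) (x + ε)` disjoint from it. By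
compactness (`IsCompact.elim_nhds_subcover`) finitely many of these intervals cover `K`; `LstStmt` for their
list. -/
def DspStmt : Prop :=
  PshStmt → LstStmt → ∀ (G : Type) [Group G] (ρ : G →* (ℝ ≃o ℝ)) (Γ : Subgroup G) (K : Set ℝ),
    IsCompact K → Disjoint K (fx ρ Γ) → ∃ g ∈ Γ, Disjoint (ρ g '' K) K

/-! ## Part D: the boundary points -/

/-- [FIN] EASY-MEDIUM. Proof. Let `F` be as in `IsPP`. It is enough that `bd f \ F` is finite. For `k : ℕ` let
`S_k = {t | t ∉ F ∧ #{x ∈ F | x < t} = k}`, an interval disjoint from `F`, empty for `k > #F`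
(`Set.Finite.of_finite_fibers` or a finite union over `k ≤ #F`). Let `a, b, c, d` be the coefficients for `S_k`. The
fixed points of `f` in `S_k` are roots of the polynomial `c X ^ 2 + (d - a) X - b`. If it is not zero there are
finitely many. If it is zero then `f` is the identity on `S_k`, which is an open set, so no point of `S_k` is
in `closure (mv f)`. (Points of `bd f` are fixed points.) -/
def FinStmt : Prop := ∀ f : ℝ ≃o ℝ, IsPP f → (bd f).Finite

/-- [BDY] EASY. Boundaries. Proof. (1) `mv (z * f * z⁻¹) = z '' mv f` and `z` is a homeomorphism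
(`OrderIso.toHomeomorph`, `Homeomorph.image_closure`). (2) As `mv f ⊆ K` and `mv (g * f * g⁻¹) = g '' mv f ⊆ g '' K`
are disjoint, `mv (f * (g * f * g⁻¹)) = mv f ∪ g '' mv f`: if `x ∈ mv f` then `g * f * g⁻¹` fixes `x`; if
`x ∈ g '' mv f` then `y = (g f g⁻¹) x ∈ g '' mv f`, `y ≠ x`, is fixed by `f`; otherwise both fix `x`. The closures
of `mv f` and of `g '' mv f` are in the disjoint closed sets `K`, `g '' K`. (3) If `bd f = ∅` then `mv f` is open
(`{x | f x = x}` is closed) and closed, so it is empty or everything (`isClopen_iff`). -/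
def BdyStmt : Prop :=
  (∀ f z : ℝ ≃o ℝ, bd (z * f * z⁻¹) = z '' bd f) ∧
  (∀ (f g : ℝ ≃o ℝ) (K : Set ℝ), IsClosed K → mv f ⊆ K → Disjoint (g '' K) K →
    bd (f * (g * f * g⁻¹)) = bd f ∪ g '' bd f ∧ Disjoint (bd f) (g '' bd f)) ∧
  ∀ f : ℝ ≃o ℝ, bd f = ∅ → mv f ≠ Set.univ → f = 1

/-- [CNT] EASY. Proof. `bd` of both sides: `#(bd f) = #(z '' bd f) = #(bd f ∪ g '' bd f) = 2 #(bd f)`
(`Set.ncard_union_eq`, `Set.ncard_image_of_injective`, finite by `FinStmt`), so `bd f = ∅`, and `mv f ⊆ K` is not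
everything. -/
def CntStmt : Prop :=
  FinStmt → BdyStmt → ∀ (f g z : ℝ ≃o ℝ) (K : Set ℝ), IsPP f → IsCompact K → mv f ⊆ K →
    Disjoint (g '' K) K → f * (g * f * g⁻¹) = z * f * z⁻¹ → f = 1

/-- [ALP] EASY. The doubling homomorphism. Proof. `h` and `g * h' * g⁻¹` commute for `h, h' ∈ Λ`: by injectivity of
`ρ` compare the two compositions at `x`; their sets of moved points are in `K` and in `ρ g '' K`, which are
disjoint, and each map preserves its own set of moved points. So `α h = h * (g * h * g⁻¹)` is a homomorphism. If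
`α h = 1` then `ρ h` fixes every `x ∈ K` (as `ρ (g * h * g⁻¹)` fixes `x`) and every `x ∉ K`. -/
def AlpStmt : Prop :=
  ∀ (G : Type) [Group G] (ρ : G →* (ℝ ≃o ℝ)), Function.Injective ρ → ∀ (Λ : Subgroup G) (g : G)
    (K : Set ℝ), (∀ h ∈ Λ, mv (ρ h) ⊆ K) → Disjoint (ρ g '' K) K →
    ∃ α : Λ →* G, Function.Injective α ∧ ∀ h : Λ, α h = h * (g * h * g⁻¹)

/-- [GRP] EASY. Proof. `SelStmt` gives `s`, `t`; `Γ = closure s`, `H = closure t`. `TrvStmt` and `CptStmt` give `K`,
`DspStmt` gives `g`, `AlpStmt` gives `α`. If `α h = z * h * z⁻¹` then `ρ h = 1` by `CntStmt`. -/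
def GrpStmt : Prop :=
  ∀ (G : Type) [Group G] (ρ : G →* (ℝ ≃o ℝ)), Function.Injective ρ → (∀ g, IsPP (ρ g)) →
    ¬ IsAmen G → ∃ (H : Subgroup G) (α : H →* G), ¬ IsAmen H ∧ Function.Injective α ∧
      ∀ (z : G) (h : H), α h = z * h * z⁻¹ → h = 1

end

end MP8a6869.PP
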